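import Pool.Agent.H401R2.Fl.Defs

/-!
Task A1: the entire function `AA`.
-/

open Complex MeasureTheory Set Filter Topology

namespace Pool.Agent.H401R2.Fl

/-- the integrand of `AA` -/
noncomputable def A1_phi (z : ℂ) (u : ℝ) : ℂ :=
  cexp (I * (((u : ℂ) + I) ^ 3 / 3 + z * ((u : ℂ) + I)))

/-- the integrals with a power -/
noncomputable def A1_A (k : ℕ) (z : ℂ) : ℂ := ∫ u : ℝ, (I * ((u : ℂ) + I)) ^ k * A1_phi z u

theorem A1_AA : AA = A1_A 0 := by
  ext z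
  simp [AA, A1_A, A1_phi]

theorem A1_norm_phi (z : ℂ) (u : ℝ) :
    ‖A1_phi z u‖ = Real.exp (-z.re) * Real.exp (1 / 3 - z.im * u - u ^ 2) := by
  rw [A1_phi, norm_exp, ← Real.exp_add]
  congr 1
  have h : I * (((u : ℂ) + I) ^ 3 / 3 + z * ((u : ℂ) + I)) =
      I * ((u : ℂ) ^ 3 / 3) - (u : ℂ) ^ 2 - I * (u : ℂ) + 1 / 3 + I * z * u - z := by
    have h1 : I ^ 2 = -1 := I_sq
    have h3 : I ^ 3 = -I := by rw [pow_succ, h1]; ring
    have h4 : I ^ 4 = 1 := I_pow_four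
    linear_combination (u ^ 2 + z) * h1 + (u : ℂ) * h3 + (1 / 3 : ℂ) * h4
  rw [h]
  have e1 : ((u : ℂ) ^ 2).re = u ^ 2 := by norm_cast
  have e2 : ((u : ℂ) ^ 3 / 3).im = 0 := by
    have : ((u : ℂ) ^ 3 / 3) = ((u ^ 3 / 3 : ℝ) : ℂ) := by push_cast; ring
    rw [this, ofReal_im]
  simp only [add_re, sub_re, mul_re, I_re, I_im, zero_mul, one_mul, zero_sub, mul_im, ofReal_re,
    ofReal_im, mul_zero, e1, e2]
  norm_num
  ring

theorem A1_norm_le (k : ℕ) (z : ℂ) (u : ℝ) {M : ℝ} (hM : |z.im| ≤ M) :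
    ‖(I * ((u : ℂ) + I)) ^ k * A1_phi z u‖ ≤
      Real.exp (-z.re) * (Real.exp (1 / 3 + (M + k) ^ 2 / 2) * Real.exp (-(1 / 2) * u ^ 2)) := by
  rw [norm_mul, A1_norm_phi, norm_pow]
  have h1 : ‖I * ((u : ℂ) + I)‖ ≤ Real.exp |u| := by
    rw [norm_mul, norm_I, one_mul]
    calc ‖(u : ℂ) + I‖ ≤ ‖(u : ℂ)‖ + ‖I‖ := norm_add_le _ _
      _ = |u| + 1 := by rw [norm_I, norm_real, Real.norm_eq_abs]
      _ ≤ Real.exp |u| := Real.add_one_le_exp _
  have h2 : ‖I * ((u : ℂ) + I)‖ ^ k ≤ Real.exp (k * |u|) := by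
    calc ‖I * ((u : ℂ) + I)‖ ^ k ≤ Real.exp |u| ^ k := pow_le_pow_left₀ (norm_nonneg _) h1 k
      _ = Real.exp (k * |u|) := by rw [← Real.exp_nat_mul]
  have h3 : -(z.im * u) ≤ M * |u| := by
    have h4 : |z.im * u| ≤ M * |u| := by
      rw [abs_mul]
      exact mul_le_mul_of_nonneg_right hM (abs_nonneg u)
    exact (neg_le_abs _).trans h4
  calc ‖I * ((u : ℂ) + I)‖ ^ k * (Real.exp (-z.re) * Real.exp (1 / 3 - z.im * u - u ^ 2))
      ≤ Real.exp (k * |u|) * (Real.exp (-z.re) * Real.exp (1 / 3 - z.im * u - u ^ 2)) :=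
        mul_le_mul_of_nonneg_right h2 (by positivity)
    _ = Real.exp (-z.re) * Real.exp (k * |u| + (1 / 3 - z.im * u - u ^ 2)) := by
        rw [Real.exp_add]; ring
    _ ≤ Real.exp (-z.re) * Real.exp (1 / 3 + (M + k) ^ 2 / 2 + -(1 / 2) * u ^ 2) := by
        refine mul_le_mul_of_nonneg_left (Real.exp_le_exp.mpr ?_) (Real.exp_pos _).le
        have h5 : (M + k) * |u| ≤ (M + k) ^ 2 / 2 + u ^ 2 / 2 := by
          have : u ^ 2 = |u| ^ 2 := (sq_abs u).symm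
          rw [this]
          nlinarith [sq_nonneg (M + k - |u|)]
        nlinarith [h3, h5]
    _ = _ := by rw [Real.exp_add]

theorem A1_gauss : Integrable (fun u : ℝ => Real.exp (-(1 / 2) * u ^ 2)) :=
  integrable_exp_neg_mul_sq (by norm_num)

theorem A1_cont (k : ℕ) (z : ℂ) : Continuous (fun u : ℝ => (I * ((u : ℂ) + I)) ^ k * A1_phi z u) := by
  unfold A1_phi
  fun_prop

theorem A1_int (k : ℕ) (z : ℂ) : Integrable (fun u : ℝ => (I * ((u : ℂ) + I)) ^ k * A1_phi z u) := by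
  refine ((A1_gauss.const_mul (Real.exp (1 / 3 + (|z.im| + k) ^ 2 / 2))).const_mul
    (Real.exp (-z.re))).mono' (A1_cont k z).aestronglyMeasurable (ae_of_all _ fun u => ?_)
  exact A1_norm_le k z u le_rfl

theorem A1_hasDerivAt (k : ℕ) (z : ℂ) : HasDerivAt (A1_A k) (A1_A (k + 1) z) z := by
  have h := hasDerivAt_integral_of_dominated_loc_of_deriv_le (𝕜 := ℂ) (μ := volume)
    (F := fun (z : ℂ) (u : ℝ) => (I * ((u : ℂ) + I)) ^ k * A1_phi z u)
    (F' := fun (z : ℂ) (u : ℝ) => (I * ((u : ℂ) + I)) ^ (k + 1) * A1_phi z u)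
    (x₀ := z) (s := Metric.ball z 1)
    (bound := fun u => Real.exp (-(z.re - 1)) *
      (Real.exp (1 / 3 + (|z.im| + 1 + ((k + 1 : ℕ) : ℝ)) ^ 2 / 2) * Real.exp (-(1 / 2) * u ^ 2)))
    (Metric.ball_mem_nhds z one_pos)
    (Eventually.of_forall fun z' => (A1_cont k z').aestronglyMeasurable) (A1_int k z)
    (A1_cont (k + 1) z).aestronglyMeasurable ?_ ?_ ?_
  · exact h.2
  · refine ae_of_all _ fun u z' hz' => ?_
    have hd : ‖z' - z‖ < 1 := by rwa [Metric.mem_ball, dist_eq_norm] at hz'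
    have h1 : |z'.im| ≤ |z.im| + 1 := by
      have h2 : |(z' - z).im| ≤ ‖z' - z‖ := abs_im_le_norm _
      rw [sub_im] at h2
      have h3 : |z'.im| ≤ |z'.im - z.im| + |z.im| := by
        have := abs_add_le (z'.im - z.im) z.im
        simpa using this
      linarith
    have h4 : z.re - 1 ≤ z'.re := by
      have h2 : |(z' - z).re| ≤ ‖z' - z‖ := abs_re_le_norm _
      rw [sub_re] at h2
      have h5 := (abs_le.mp h2).1
      linarith
    refine (A1_norm_le (k + 1) z' u h1).trans ?_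
    refine mul_le_mul_of_nonneg_right (Real.exp_le_exp.mpr (by linarith)) (by positivity)
  · exact (A1_gauss.const_mul _).const_mul _
  · refine ae_of_all _ fun u z' _ => ?_
    have h1 : HasDerivAt (fun z : ℂ => I * (((u : ℂ) + I) ^ 3 / 3 + z * ((u : ℂ) + I)))
        (I * ((u : ℂ) + I)) z' := by
      have h2 : HasDerivAt (fun z : ℂ => z * ((u : ℂ) + I)) ((u : ℂ) + I) z' := by
        simpa using (hasDerivAt_id z').mul_const ((u : ℂ) + I)
      exact (h2.const_add _).const_mul I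
    have h3 := h1.cexp
    have h4 := h3.const_mul ((I * ((u : ℂ) + I)) ^ k)
    refine HasDerivAt.congr_deriv h4 ?_
    simp only [A1_phi]
    ring

theorem AA_differentiable : Differentiable ℂ AA := by
  rw [A1_AA]
  exact fun z => (A1_hasDerivAt 0 z).differentiableAt

theorem A1_deriv : deriv AA = A1_A 1 := by
  ext z
  rw [A1_AA]
  exact (A1_hasDerivAt 0 z).deriv

theorem A1_deriv2 : deriv (deriv AA) = A1_A 2 := by
  ext z
  rw [A1_deriv]
  exact (A1_hasDerivAt 1 z).deriv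

theorem AA_ode (z : ℂ) : deriv (deriv AA) z = z * AA z := by
  rw [A1_deriv2, A1_AA]
  have h0 := A1_int 0 z
  have h2 := A1_int 2 z
  have hd : ∀ u : ℝ, HasDerivAt (fun u : ℝ => A1_phi z u)
      (I * (z * ((I * ((u : ℂ) + I)) ^ 0 * A1_phi z u) - (I * ((u : ℂ) + I)) ^ 2 * A1_phi z u))
      u := by
    intro u
    have h1 : HasDerivAt (fun u : ℝ => (u : ℂ) + I) 1 u :=
      (Complex.ofRealCLM.hasDerivAt (x := u)).add_const I
    have h3 : HasDerivAt (fun u : ℝ => I * (((u : ℂ) + I) ^ 3 / 3 + z * ((u : ℂ) + I)))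
        (I * (3 * ((u : ℂ) + I) ^ 2 * 1 / 3 + z * 1)) u := by
      have h4 := ((h1.pow 3).div_const 3).add (h1.const_mul z)
      have h5 := h4.const_mul I
      refine HasDerivAt.congr_deriv h5 ?_
      norm_num
    have h6 := h3.cexp
    refine HasDerivAt.congr_deriv h6 ?_
    simp only [A1_phi]
    have h7 : I ^ 2 = -1 := I_sq
    linear_combination (cexp (I * (((u : ℂ) + I) ^ 3 / 3 + z * ((u : ℂ) + I))) * I *
      ((u : ℂ) + I) ^ 2) * h7
  have hint0 : Integrable (fun u : ℝ => z * ((I * ((u : ℂ) + I)) ^ 0 * A1_phi z u)) :=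
    h0.const_mul z
  have hint : Integrable (fun u : ℝ => I * (z * ((I * ((u : ℂ) + I)) ^ 0 * A1_phi z u)
      - (I * ((u : ℂ) + I)) ^ 2 * A1_phi z u)) := (hint0.sub h2).const_mul I
  have hz := integral_eq_zero_of_hasDerivAt_of_integrable hd hint (by simpa using h0)
  rw [integral_const_mul, integral_sub hint0 h2, integral_const_mul] at hz
  have h8 := (mul_eq_zero.mp hz).resolve_left I_ne_zero
  rw [A1_A, A1_A]
  exact (sub_eq_zero.mp h8).symm

theorem AA_conj (z : ℂ) : AA ((starRingEnd ℂ) z) = (starRingEnd ℂ) (AA z) := by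
  unfold AA
  rw [← integral_conj, ← integral_neg_eq_self]
  refine integral_congr_ae (ae_of_all _ fun u => ?_)
  simp only []
  rw [← exp_conj]
  congr 1
  simp only [map_mul, map_add, map_div₀, map_pow, conj_I, conj_ofReal, map_ofNat, ofReal_neg]
  ring

theorem AA_decay (y : ℝ) : ∃ C : ℝ, ∀ x : ℝ, ‖AA (x + I * y)‖ ≤ C * Real.exp (-x)
    ∧ ‖deriv AA (x + I * y)‖ ≤ C * Real.exp (-x) := by
  rw [A1_deriv, A1_AA]
  have key : ∀ (k : ℕ) (x : ℝ), ‖A1_A k (x + I * y)‖ ≤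
      (Real.exp (1 / 3 + (|y| + k) ^ 2 / 2) * ∫ u : ℝ, Real.exp (-(1 / 2) * u ^ 2))
        * Real.exp (-x) := by
    intro k x
    have hre : ((x : ℂ) + I * y).re = x := by simp
    have him : ((x : ℂ) + I * y).im = y := by simp
    have h1 := norm_integral_le_of_norm_le
      ((A1_gauss.const_mul (Real.exp (1 / 3 + (|y| + k) ^ 2 / 2))).const_mul (Real.exp (-x)))
      (ae_of_all _ fun u => by
        have h2 := A1_norm_le k ((x : ℂ) + I * y) u (M := |y|) (by rw [him])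
        rwa [hre] at h2)
    rw [integral_const_mul, integral_const_mul] at h1
    rw [A1_A]
    linarith [h1]
  refine ⟨Real.exp (1 / 3 + (|y| + (1 : ℕ)) ^ 2 / 2) * ∫ u : ℝ, Real.exp (-(1 / 2) * u ^ 2),
    fun x => ⟨?_, key 1 x⟩⟩
  refine (key 0 x).trans ?_
  have hI : 0 ≤ ∫ u : ℝ, Real.exp (-(1 / 2) * u ^ 2) := integral_nonneg fun u => (Real.exp_pos _).le
  have he : Real.exp (1 / 3 + (|y| + (0 : ℕ)) ^ 2 / 2) ≤ Real.exp (1 / 3 + (|y| + (1 : ℕ)) ^ 2 / 2) := by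
    apply Real.exp_le_exp.mpr
    push_cast
    nlinarith [abs_nonneg y]
  exact mul_le_mul_of_nonneg_right (mul_le_mul_of_nonneg_right he hI) (Real.exp_pos _).le

/-- uniqueness for the equation `f'' = z f` -/
theorem A1_unique {f f1 : ℂ → ℂ} (h0 : ∀ z, HasDerivAt f (f1 z) z)
    (h1 : ∀ z, HasDerivAt f1 (z * f z) z) {z0 : ℂ} (hz : f z0 = 0) (hz1 : f1 z0 = 0) (z : ℂ) :
    f z = 0 := by
  set c := z - z0 with hc
  set γ : ℝ → ℂ := fun t => z0 + t * c with hγ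
  have hγd : ∀ t : ℝ, HasDerivAt γ c t := by
    intro t
    have h2 : HasDerivAt (fun t : ℝ => (t : ℂ) * c) c t := by
      simpa using (Complex.ofRealCLM.hasDerivAt (x := t)).mul_const c
    exact h2.const_add z0
  set F : ℝ → ℂ × ℂ := fun t => (f (γ t), f1 (γ t)) with hF
  have hFd : ∀ t : ℝ, HasDerivAt F (f1 (γ t) * c, γ t * f (γ t) * c) t := by
    intro t
    exact ((h0 (γ t)).comp t (hγd t)).prodMk ((h1 (γ t)).comp t (hγd t))
  have hbound : ∀ t ∈ Ico (0 : ℝ) 1, ‖(f1 (γ t) * c, γ t * f (γ t) * c)‖ ≤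
      ((‖z0‖ + ‖c‖ + 1) * ‖c‖) * ‖F t‖ + 0 := by
    intro t ht
    have h3 : ‖γ t‖ ≤ ‖z0‖ + ‖c‖ := by
      refine (norm_add_le _ _).trans ?_
      rw [norm_mul, norm_real, Real.norm_eq_abs, abs_of_nonneg ht.1]
      nlinarith [norm_nonneg c, ht.2]
    have h4 : ‖f (γ t)‖ ≤ ‖F t‖ := norm_fst_le (F t)
    have h5 : ‖f1 (γ t)‖ ≤ ‖F t‖ := norm_snd_le (F t)
    have h6 : 0 ≤ ‖F t‖ := norm_nonneg _
    have hc0 : 0 ≤ ‖c‖ := norm_nonneg _
    have hz0 : 0 ≤ ‖z0‖ := norm_nonneg _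
    rw [add_zero, Prod.norm_def]
    refine max_le ?_ ?_
    · simp only [norm_mul]
      calc ‖f1 (γ t)‖ * ‖c‖ ≤ ‖F t‖ * ‖c‖ := mul_le_mul_of_nonneg_right h5 hc0
        _ ≤ ((‖z0‖ + ‖c‖ + 1) * ‖c‖) * ‖F t‖ := by
            have : 0 ≤ (‖z0‖ + ‖c‖) * (‖F t‖ * ‖c‖) := by positivity
            nlinarith
    · simp only [norm_mul]
      calc ‖γ t‖ * ‖f (γ t)‖ * ‖c‖ ≤ (‖z0‖ + ‖c‖) * ‖F t‖ * ‖c‖ := by gcongr
        _ ≤ ((‖z0‖ + ‖c‖ + 1) * ‖c‖) * ‖F t‖ := by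
            have : 0 ≤ ‖F t‖ * ‖c‖ := by positivity
            nlinarith
  have hγ0 : γ 0 = z0 := by simp [hγ]
  have hγ1 : γ 1 = z := by simp [hγ, hc]
  have hF0 : ‖F 0‖ ≤ 0 := by
    simp only [hF, hγ0, hz, hz1]
    simp
  have h7 := norm_le_gronwallBound_of_norm_deriv_right_le (f := F)
    (f' := fun t => (f1 (γ t) * c, γ t * f (γ t) * c)) (δ := 0)
    (K := (‖z0‖ + ‖c‖ + 1) * ‖c‖) (ε := 0) (a := 0) (b := 1)
    (fun t _ => (hFd t).continuousAt.continuousWithinAt)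
    (fun t _ => (hFd t).hasDerivWithinAt) hF0 hbound 1 ⟨zero_le_one, le_rfl⟩
  rw [gronwallBound_ε0_δ0] at h7
  have h8 : F 1 = 0 := norm_le_zero_iff.mp h7
  have h9 : f (γ 1) = 0 := congrArg Prod.fst h8
  rwa [hγ1] at h9

theorem A1_hasDeriv (z : ℂ) : HasDerivAt AA (deriv AA z) z := (AA_differentiable z).hasDerivAt

theorem A1_hasDeriv2 (z : ℂ) : HasDerivAt (deriv AA) (z * AA z) z := by
  have h := A1_hasDerivAt 1 z
  rw [← A1_deriv] at h
  have h2 : A1_A (1 + 1) z = z * AA z := by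
    rw [← AA_ode, A1_deriv2]
  rwa [h2] at h

theorem AA_rot (z : ℂ) : AA z + cexp (2 * Real.pi * I / 3) * AA (cexp (2 * Real.pi * I / 3) * z)
    + cexp (2 * Real.pi * I / 3) ^ 2 * AA (cexp (2 * Real.pi * I / 3) ^ 2 * z) = 0 := by
  have hprim : IsPrimitiveRoot (cexp (2 * Real.pi * I / 3)) 3 := by
    have := Complex.isPrimitiveRoot_exp 3 (by norm_num)
    simpa using this
  set w := cexp (2 * Real.pi * I / 3) with hw
  have hw3 : w ^ 3 = 1 := hprim.pow_eq_one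
  have hsum : 1 + w + w ^ 2 = 0 := by
    have := hprim.geom_sum_eq_zero (by norm_num)
    simpa [Finset.sum_range_succ] using this
  set f : ℂ → ℂ := fun z => AA z + w * AA (w * z) + w ^ 2 * AA (w ^ 2 * z) with hf
  set f1 : ℂ → ℂ := fun z => deriv AA z + w ^ 2 * deriv AA (w * z) + w ^ 4 * deriv AA (w ^ 2 * z)
    with hf1
  have hlin : ∀ (c z : ℂ), HasDerivAt (fun z => c * z) c z := fun c z => by
    simpa using (hasDerivAt_id z).const_mul c
  have h0 : ∀ z, HasDerivAt f (f1 z) z := by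
    intro z
    have a1 := (A1_hasDeriv (w * z)).comp z (hlin w z)
    have a2 := (A1_hasDeriv (w ^ 2 * z)).comp z (hlin (w ^ 2) z)
    have a3 := ((A1_hasDeriv z).add (a1.const_mul w)).add (a2.const_mul (w ^ 2))
    refine HasDerivAt.congr_deriv (a3 : HasDerivAt f _ z) ?_
    simp only [hf1]
    ring
  have h1 : ∀ z, HasDerivAt f1 (z * f z) z := by
    intro z
    have a1 := (A1_hasDeriv2 (w * z)).comp z (hlin w z)
    have a2 := (A1_hasDeriv2 (w ^ 2 * z)).comp z (hlin (w ^ 2) z)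
    have a3 := ((A1_hasDeriv2 z).add (a1.const_mul (w ^ 2))).add (a2.const_mul (w ^ 4))
    refine HasDerivAt.congr_deriv (a3 : HasDerivAt f1 _ z) ?_
    simp only [hf]
    linear_combination (z * w * AA (w * z) + (w ^ 3 + 1) * (z * w ^ 2 * AA (w ^ 2 * z))) * hw3
  have hz : f 0 = 0 := by
    simp only [hf, mul_zero]
    linear_combination AA 0 * hsum
  have hz1 : f1 0 = 0 := by
    simp only [hf1, mul_zero]
    linear_combination deriv AA 0 * hsum + deriv AA 0 * w * hw3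
  exact A1_unique h0 h1 hz hz1 z

/-- uniqueness for `AA` -/
theorem A1_not_both_zero {z0 : ℂ} (h : AA z0 = 0) (h' : deriv AA z0 = 0) (z : ℂ) : AA z = 0 :=
  A1_unique A1_hasDeriv A1_hasDeriv2 h h' z

end Pool.Agent.H401R2.Fl
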