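import Pool.Agent.H401R2.Fl.A1

/-!
Task B1: the function `BB`.
-/

open Complex MeasureTheory Set Filter Topology

namespace Pool.Agent.H401R2.Fl

/-- the integrand of `BB` -/
noncomputable def B1_psi (w : ℂ) (v : ℝ) : ℂ := cexp (-(w * (v : ℂ) ^ 2) + I * (v : ℂ) ^ 3 / 3)

theorem B1_norm (w : ℂ) (v : ℝ) : ‖B1_psi w v‖ = Real.exp (-w.re * v ^ 2) := by
  rw [B1_psi, norm_exp]
  congr 1
  have e1 : ((v : ℂ) ^ 2) = ((v ^ 2 : ℝ) : ℂ) := by push_cast; ring
  have e2 : I * (v : ℂ) ^ 3 / 3 = ((v ^ 3 / 3 : ℝ) : ℂ) * I := by push_cast; ring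
  rw [e1, e2]
  simp only [add_re, neg_re, mul_re, ofReal_re, ofReal_im, I_re, I_im]
  ring

theorem B1_cont (w : ℂ) : Continuous (B1_psi w) := by
  unfold B1_psi
  fun_prop

theorem B1_int {w : ℂ} (hw : 0 < w.re) : Integrable (B1_psi w) := by
  refine (integrable_exp_neg_mul_sq hw).mono' (B1_cont w).aestronglyMeasurable
    (ae_of_all _ fun v => ?_)
  rw [B1_norm]

theorem norm_BB_le {w : ℂ} (hw : 0 < w.re) : ‖BB w‖ ≤ Real.sqrt (Real.pi / w.re) := by
  rw [← integral_gaussian]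
  exact norm_integral_le_of_norm_le (integrable_exp_neg_mul_sq hw)
    (ae_of_all _ fun v => (B1_norm w v).le)

theorem B1_sq_int {b : ℝ} (hb : 0 < b) : Integrable fun x : ℝ => x ^ 2 * Real.exp (-b * x ^ 2) := by
  have := integrable_rpow_mul_exp_neg_mul_sq hb (s := 2) (by norm_num)
  simpa using this

theorem B1_hasDerivAt {w : ℂ} (hw : 0 < w.re) :
    HasDerivAt BB (∫ v : ℝ, -(v : ℂ) ^ 2 * B1_psi w v) w := by
  have hc : ∀ w : ℂ, Continuous fun v : ℝ => -(v : ℂ) ^ 2 * B1_psi w v := fun w =>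
    ((continuous_ofReal.pow 2).neg).mul (B1_cont w)
  have h := hasDerivAt_integral_of_dominated_loc_of_deriv_le (𝕜 := ℂ) (μ := volume)
    (F := fun (w : ℂ) (v : ℝ) => B1_psi w v)
    (F' := fun (w : ℂ) (v : ℝ) => -(v : ℂ) ^ 2 * B1_psi w v)
    (x₀ := w) (s := Metric.ball w (w.re / 2))
    (bound := fun v => v ^ 2 * Real.exp (-(w.re / 2) * v ^ 2))
    (Metric.ball_mem_nhds w (by positivity))
    (Eventually.of_forall fun z' => (B1_cont z').aestronglyMeasurable) (B1_int hw)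
    (hc w).aestronglyMeasurable ?_ (B1_sq_int (by positivity)) ?_
  · exact h.2
  · refine ae_of_all _ fun v z' hz' => ?_
    have hd : ‖z' - w‖ < w.re / 2 := by rwa [Metric.mem_ball, dist_eq_norm] at hz'
    have h4 : w.re / 2 ≤ z'.re := by
      have h2 : |(z' - w).re| ≤ ‖z' - w‖ := abs_re_le_norm _
      rw [sub_re] at h2
      have h5 := (abs_le.mp h2).1
      linarith
    rw [norm_mul, B1_norm, norm_neg, norm_pow, norm_real, Real.norm_eq_abs, sq_abs]
    refine mul_le_mul_of_nonneg_left (Real.exp_le_exp.mpr ?_) (sq_nonneg v)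
    nlinarith [sq_nonneg v]
  · refine ae_of_all _ fun v z' _ => ?_
    have h1 : HasDerivAt (fun w : ℂ => -(w * (v : ℂ) ^ 2) + I * (v : ℂ) ^ 3 / 3)
        (-(1 * (v : ℂ) ^ 2)) z' :=
      (((hasDerivAt_id z').mul_const ((v : ℂ) ^ 2)).neg).add_const _
    refine HasDerivAt.congr_deriv h1.cexp ?_
    simp only [B1_psi]
    ring

theorem BB_differentiableOn : DifferentiableOn ℂ BB {w | 0 < w.re} := fun _ hw =>
  (B1_hasDerivAt hw).differentiableAt.differentiableWithinAt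

theorem BB_conj (w : ℂ) : BB ((starRingEnd ℂ) w) = (starRingEnd ℂ) (BB w) := by
  unfold BB
  rw [← integral_conj, ← integral_neg_eq_self]
  refine integral_congr_ae (ae_of_all _ fun u => ?_)
  simp only []
  rw [← exp_conj]
  congr 1
  simp only [map_mul, map_add, map_neg, map_div₀, map_pow, conj_I, conj_ofReal, map_ofNat,
    ofReal_neg]
  ring

/-! ### shifting the contour -/

/-- the integrand on the line of height `c` -/
noncomputable def B1_J (x c u : ℝ) : ℂ :=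
  cexp (I * (((u : ℂ) + c * I) ^ 3 / 3 + x * ((u : ℂ) + c * I)))

theorem B1_J_norm (x c u : ℝ) : ‖B1_J x c u‖ =
    Real.exp (c ^ 3 / 3 - c * x) * Real.exp (-c * u ^ 2) := by
  rw [B1_J, norm_exp, ← Real.exp_add]
  congr 1
  have h : I * (((u : ℂ) + c * I) ^ 3 / 3 + x * ((u : ℂ) + c * I)) =
      ((c ^ 3 / 3 - c * x + -c * u ^ 2 : ℝ) : ℂ) + ((u ^ 3 / 3 - c ^ 2 * u + x * u : ℝ) : ℂ) * I := by
    push_cast
    have h1 : I ^ 2 = -1 := I_sq
    have h3 : I ^ 3 = -I := by rw [pow_succ, h1]; ring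
    have h4 : I ^ 4 = 1 := I_pow_four
    linear_combination ((c : ℂ) * u ^ 2 + c * x) * h1 + (c : ℂ) ^ 2 * u * h3
      + ((c : ℂ) ^ 3 / 3) * h4
  rw [h]
  simp only [add_re, mul_re, ofReal_re, ofReal_im, I_re, I_im]
  ring

theorem B1_J_cont (x c : ℝ) : Continuous (B1_J x c) := by
  unfold B1_J
  fun_prop

theorem B1_J_int (x : ℝ) {c : ℝ} (hc : 0 < c) : Integrable (B1_J x c) := by
  refine ((integrable_exp_neg_mul_sq hc).const_mul (Real.exp (c ^ 3 / 3 - c * x))).mono'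
    (B1_J_cont x c).aestronglyMeasurable (ae_of_all _ fun v => ?_)
  rw [B1_J_norm]

theorem B1_fac (x c u : ℝ) : ‖((u : ℂ) + c * I) ^ 2 + x‖ ≤ 2 * u ^ 2 + (2 * c ^ 2 + |x|) := by
  have h1 : ‖(u : ℂ) + c * I‖ ≤ |u| + |c| := by
    refine (norm_add_le _ _).trans ?_
    rw [norm_mul, norm_I, norm_real, norm_real, Real.norm_eq_abs, Real.norm_eq_abs, mul_one]
  calc ‖((u : ℂ) + c * I) ^ 2 + x‖ ≤ ‖((u : ℂ) + c * I) ^ 2‖ + ‖(x : ℂ)‖ := norm_add_le _ _
    _ = ‖(u : ℂ) + c * I‖ ^ 2 + |x| := by rw [norm_pow, norm_real, Real.norm_eq_abs]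
    _ ≤ (|u| + |c|) ^ 2 + |x| := by gcongr
    _ ≤ 2 * u ^ 2 + (2 * c ^ 2 + |x|) := by
        have e1 := sq_abs u
        have e2 := sq_abs c
        nlinarith [sq_nonneg (|u| - |c|)]

theorem B1_J'_int (x : ℝ) {c : ℝ} (hc : 0 < c) :
    Integrable (fun u : ℝ => -(((u : ℂ) + c * I) ^ 2 + x) * B1_J x c u) := by
  have hcont : Continuous (fun u : ℝ => -(((u : ℂ) + c * I) ^ 2 + x) * B1_J x c u) := by
    have := B1_J_cont x c
    fun_prop
  have hb : Integrable (fun u : ℝ => Real.exp (c ^ 3 / 3 - c * x) *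
      (2 * (u ^ 2 * Real.exp (-c * u ^ 2)) + (2 * c ^ 2 + |x|) * Real.exp (-c * u ^ 2))) :=
    (((B1_sq_int hc).const_mul 2).add ((integrable_exp_neg_mul_sq hc).const_mul _)).const_mul _
  refine hb.mono' hcont.aestronglyMeasurable (ae_of_all _ fun u => ?_)
  rw [norm_mul, norm_neg, B1_J_norm]
  have := B1_fac x c u
  calc ‖((u : ℂ) + c * I) ^ 2 + x‖ * (Real.exp (c ^ 3 / 3 - c * x) * Real.exp (-c * u ^ 2))
      ≤ (2 * u ^ 2 + (2 * c ^ 2 + |x|)) *
        (Real.exp (c ^ 3 / 3 - c * x) * Real.exp (-c * u ^ 2)) :=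
        mul_le_mul_of_nonneg_right this (by positivity)
    _ = _ := by ring

theorem B1_J'_zero (x : ℝ) {c : ℝ} (hc : 0 < c) :
    ∫ u : ℝ, -(((u : ℂ) + c * I) ^ 2 + x) * B1_J x c u = 0 := by
  have hd : ∀ u : ℝ, HasDerivAt (fun u : ℝ => B1_J x c u)
      (-I * (-(((u : ℂ) + c * I) ^ 2 + x) * B1_J x c u)) u := by
    intro u
    have h1 : HasDerivAt (fun u : ℝ => (u : ℂ) + c * I) 1 u :=
      (Complex.ofRealCLM.hasDerivAt (x := u)).add_const _
    have h4 := ((h1.pow 3).div_const 3).add (h1.const_mul (x : ℂ))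
    have h5 := (h4.const_mul I).cexp
    refine HasDerivAt.congr_deriv h5 ?_
    simp only [B1_J, Pi.add_apply, Pi.pow_apply]
    push_cast
    ring
  have hz := integral_eq_zero_of_hasDerivAt_of_integrable hd ((B1_J'_int x hc).const_mul (-I))
    (B1_J_int x hc)
  rw [integral_const_mul] at hz
  exact (mul_eq_zero.mp hz).resolve_left (neg_ne_zero.mpr I_ne_zero)

theorem B1_J_hasDerivAt (x : ℝ) {c : ℝ} (hc : 0 < c) :
    HasDerivAt (fun c : ℝ => ∫ u : ℝ, B1_J x c u) 0 c := by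
  have hcont : ∀ c : ℝ, Continuous (fun u : ℝ => -(((u : ℂ) + c * I) ^ 2 + x) * B1_J x c u) := by
    intro c
    have := B1_J_cont x c
    fun_prop
  have h := hasDerivAt_integral_of_dominated_loc_of_deriv_le (𝕜 := ℝ) (μ := volume)
    (F := fun (c : ℝ) (u : ℝ) => B1_J x c u)
    (F' := fun (c : ℝ) (u : ℝ) => -(((u : ℂ) + c * I) ^ 2 + x) * B1_J x c u)
    (x₀ := c) (s := Metric.ball c (c / 2))
    (bound := fun u => Real.exp ((2 * c) ^ 3 / 3 + 2 * c * |x|) *
      (2 * (u ^ 2 * Real.exp (-(c / 2) * u ^ 2))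
        + (2 * (2 * c) ^ 2 + |x|) * Real.exp (-(c / 2) * u ^ 2)))
    (Metric.ball_mem_nhds c (by positivity))
    (Eventually.of_forall fun z' => (B1_J_cont x z').aestronglyMeasurable) (B1_J_int x hc)
    (hcont c).aestronglyMeasurable ?_ ?_ ?_
  · rw [B1_J'_zero x hc] at h
    exact h.2
  · refine ae_of_all _ fun u c' hc' => ?_
    have hd : |c' - c| < c / 2 := by rwa [Metric.mem_ball, Real.dist_eq] at hc'
    have hd2 := abs_lt.mp hd
    have h1 : c / 2 ≤ c' := by linarith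
    have h2 : c' ≤ 2 * c := by linarith
    have h0 : 0 < c' := by linarith
    rw [norm_mul, norm_neg, B1_J_norm]
    have h3 := B1_fac x c' u
    have h4 : 2 * u ^ 2 + (2 * c' ^ 2 + |x|) ≤ 2 * u ^ 2 + (2 * (2 * c) ^ 2 + |x|) := by
      have : c' ^ 2 ≤ (2 * c) ^ 2 := pow_le_pow_left₀ h0.le h2 2
      linarith
    have h5 : Real.exp (c' ^ 3 / 3 - c' * x) ≤ Real.exp ((2 * c) ^ 3 / 3 + 2 * c * |x|) := by
      apply Real.exp_le_exp.mpr
      have e1 : c' ^ 3 ≤ (2 * c) ^ 3 := pow_le_pow_left₀ h0.le h2 3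
      have e2 : -(c' * x) ≤ c' * |x| := by nlinarith [neg_abs_le x]
      have e3 : c' * |x| ≤ 2 * c * |x| := mul_le_mul_of_nonneg_right h2 (abs_nonneg x)
      linarith
    have h6 : Real.exp (-c' * u ^ 2) ≤ Real.exp (-(c / 2) * u ^ 2) := by
      apply Real.exp_le_exp.mpr
      nlinarith [sq_nonneg u]
    calc ‖((u : ℂ) + c' * I) ^ 2 + x‖ * (Real.exp (c' ^ 3 / 3 - c' * x) * Real.exp (-c' * u ^ 2))
        ≤ (2 * u ^ 2 + (2 * (2 * c) ^ 2 + |x|)) *
          (Real.exp ((2 * c) ^ 3 / 3 + 2 * c * |x|) * Real.exp (-(c / 2) * u ^ 2)) := by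
          refine mul_le_mul (h3.trans h4) (mul_le_mul h5 h6 (Real.exp_pos _).le
            (Real.exp_pos _).le) (by positivity) (by positivity)
      _ = _ := by ring
  · exact (((B1_sq_int (by positivity)).const_mul 2).add
      ((integrable_exp_neg_mul_sq (by positivity)).const_mul _)).const_mul _
  · refine ae_of_all _ fun u c' _ => ?_
    have h1 : HasDerivAt (fun c : ℝ => (u : ℂ) + c * I) I c' := by
      simpa using ((Complex.ofRealCLM.hasDerivAt (x := c')).mul_const I).const_add (u : ℂ)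
    have h4 := ((h1.pow 3).div_const 3).add (h1.const_mul (x : ℂ))
    have h5 := (h4.const_mul I).cexp
    refine HasDerivAt.congr_deriv h5 ?_
    simp only [B1_J, Pi.add_apply, Pi.pow_apply]
    push_cast
    have hI : I ^ 2 = -1 := I_sq
    linear_combination (cexp (I * (((u : ℂ) + c' * I) ^ 3 / 3 + x * ((u : ℂ) + c' * I))) *
      (((u : ℂ) + c' * I) ^ 2 + x)) * hI

theorem B1_J_const (x : ℝ) {c : ℝ} (hc : 0 < c) :
    ∫ u : ℝ, B1_J x c u = ∫ u : ℝ, B1_J x 1 u := by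
  refine IsOpen.is_const_of_deriv_eq_zero (𝕜 := ℝ) (f := fun c : ℝ => ∫ u : ℝ, B1_J x c u)
    isOpen_Ioi (s := Ioi 0) isPreconnected_Ioi ?_ ?_ hc (mem_Ioi.mpr one_pos)
  · exact fun c hc => (B1_J_hasDerivAt x hc).differentiableAt.differentiableWithinAt
  · exact fun c hc => (B1_J_hasDerivAt x hc).deriv

theorem B1_real {c : ℝ} (hc : 0 < c) :
    AA ((c : ℂ) ^ 2) = cexp (-(2 / 3) * (c : ℂ) ^ 3) * BB c := by
  have h1 := B1_J_const (c ^ 2) hc
  have h2 : ∫ u : ℝ, B1_J (c ^ 2) 1 u = AA ((c : ℂ) ^ 2) := by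
    unfold AA B1_J
    refine integral_congr_ae (ae_of_all _ fun u => ?_)
    simp only []
    congr 1
    push_cast
    ring
  have h3 : ∫ u : ℝ, B1_J (c ^ 2) c u = cexp (-(2 / 3) * (c : ℂ) ^ 3) * BB c := by
    unfold BB
    rw [← integral_const_mul]
    refine integral_congr_ae (ae_of_all _ fun u => ?_)
    simp only [B1_J]
    rw [← Complex.exp_add]
    congr 1
    push_cast
    have h1 : I ^ 2 = -1 := I_sq
    have h3 : I ^ 3 = -I := by rw [pow_succ, h1]; ring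
    have h4 : I ^ 4 = 1 := I_pow_four
    linear_combination ((c : ℂ) * u ^ 2 + c * c ^ 2) * h1 + (c : ℂ) ^ 2 * u * h3
      + ((c : ℂ) ^ 3 / 3) * h4
  rw [← h2, ← h1, h3]

theorem B1_isOpen : IsOpen {w : ℂ | 0 < w.re} := isOpen_lt continuous_const continuous_re

theorem B1_isPreconnected : IsPreconnected {w : ℂ | 0 < w.re} :=
  (convex_halfSpace_re_gt 0).isPreconnected

theorem AA_sq {w : ℂ} (hw : 0 < w.re) : AA (w ^ 2) = cexp (-(2 / 3) * w ^ 3) * BB w := by
  have hf : AnalyticOnNhd ℂ (fun w : ℂ => AA (w ^ 2)) {w : ℂ | 0 < w.re} := by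
    refine DifferentiableOn.analyticOnNhd ?_ B1_isOpen
    exact (AA_differentiable.comp (differentiable_id.pow 2)).differentiableOn
  have hg : AnalyticOnNhd ℂ (fun w : ℂ => cexp (-(2 / 3) * w ^ 3) * BB w) {w : ℂ | 0 < w.re} := by
    refine DifferentiableOn.analyticOnNhd ?_ B1_isOpen
    refine DifferentiableOn.mul ?_ BB_differentiableOn
    exact (((differentiable_id.pow 3).const_mul _).cexp).differentiableOn
  refine hf.eqOn_of_preconnected_of_frequently_eq hg B1_isPreconnected (z₀ := 1) (by simp) ?_ hw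
  have ht : Tendsto (fun n : ℕ => (((1 + 1 / ((n : ℝ) + 1) : ℝ)) : ℂ)) atTop (𝓝[≠] 1) := by
    refine tendsto_nhdsWithin_iff.mpr ⟨?_, Eventually.of_forall fun n => ?_⟩
    · have h1 : Tendsto (fun n : ℕ => (1 + 1 / ((n : ℝ) + 1) : ℝ)) atTop (𝓝 1) := by
        simpa using tendsto_const_nhds.add (tendsto_one_div_add_atTop_nhds_zero_nat (𝕜 := ℝ))
      have h2 := (continuous_ofReal.tendsto (1 : ℝ)).comp h1
      rw [ofReal_one] at h2
      exact h2
    · rw [mem_compl_iff, mem_singleton_iff]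
      intro h
      have h3 : (1 + 1 / ((n : ℝ) + 1) : ℝ) = 1 := by exact_mod_cast h
      have h4 : (0 : ℝ) < 1 / ((n : ℝ) + 1) := by positivity
      linarith
  refine ht.frequently (Frequently.of_forall fun n => ?_)
  exact B1_real (by positivity)

end Pool.Agent.H401R2.Fl
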