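import Mathlib

/-!
Definitions for the large order analysis of the flow polynomial averaged over cubic multigraphs.
-/

open Complex MeasureTheory Set Filter Topology

namespace Pool.Agent.H401R2.Fl

/-- `2π` times the Airy function, as an entire function. -/
noncomputable def AA (z : ℂ) : ℂ :=
  ∫ u : ℝ, cexp (I * (((u : ℂ) + I) ^ 3 / 3 + z * ((u : ℂ) + I)))

/-- the slowly varying factor: `AA (w^2) = exp (-(2/3) w^3) * BB w` for `0 < re w`. -/
noncomputable def BB (w : ℂ) : ℂ :=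
  ∫ v : ℝ, cexp (-(w * (v : ℂ) ^ 2) + I * (v : ℂ) ^ 3 / 3)

/-- the logarithm of `BB` on the right half plane. -/
noncomputable def ell (w : ℂ) : ℂ :=
  Complex.log (BB 1) + (w - 1) * ∫ t in (0 : ℝ)..1,
    deriv BB (1 + (t : ℂ) * (w - 1)) / BB (1 + (t : ℂ) * (w - 1))

/-- the integrand, on the right half plane: `2 w Ai(w^2)^q exp(τ w^2)`. -/
noncomputable def GG (q : ℝ) (τ w : ℂ) : ℂ :=
  2 * w * cexp (q * ell w - (2 * q / 3) * w ^ 3 + τ * w ^ 2)

/-- the Laplace transform of the power of the Airy function along the contour which starts at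
`1 + i ∞`, goes down to `1` and then to `+∞` (in the variable `w`, the argument of the Airy
function being `w^2`). -/
noncomputable def LL (q : ℝ) (τ : ℂ) : ℂ :=
  (∫ x in Ioi (1 : ℝ), GG q τ (x : ℂ)) - ∫ s in Ioi (0 : ℝ), I * GG q τ (1 + I * (s : ℂ))

/-- the normalised function, in the variable `ζ = log τ`. -/
noncomputable def FF (q : ℝ) (ζ : ℂ) : ℂ :=
  ((q ^ (1 - q / 2) / (2 * Real.pi ^ (q / 2)) : ℝ) : ℂ)
    * cexp (-(cexp (3 * ζ) / (3 * q ^ 2)) + ((q - 1) / 2) * ζ) * LL q (cexp ζ)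

/-- the large variable `T = τ^3 / q^2`. -/
noncomputable def TT (q : ℝ) (ζ : ℂ) : ℂ := cexp (3 * ζ) / (q : ℂ) ^ 2

/-- the coefficients of the asymptotic expansion of `BB`. -/
noncomputable def bR (k : ℕ) : ℝ :=
  (-1) ^ k * ((6 * k).factorial : ℝ) / (((3 * k).factorial : ℝ) * ((2 * k).factorial : ℝ) * 576 ^ k)

/-- the coefficients of its `q`-th power. -/
noncomputable def dR (q : ℝ) : ℕ → ℝ
  | 0 => 1
  | k + 1 => (∑ j : Fin (k + 1), ((((j : ℕ) : ℝ) + 1) * q - ((k : ℝ) - ((j : ℕ) : ℝ)))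
      * bR ((j : ℕ) + 1) * dR q (k - (j : ℕ))) / ((k : ℝ) + 1)

/-- the coefficients of the Laplace expansion of `∫ (1+ν)^a exp (-T (ν^2 + (2/3) ν^3)) dν`. -/
noncomputable def rR (a : ℝ) (j : ℕ) : ℝ :=
  ∑ l ∈ Finset.range (2 * j + 1),
    (∏ s ∈ Finset.range (2 * j - l), (a - (s : ℝ))) / ((2 * j - l).factorial : ℝ)
      * (-2 / 3) ^ l * Real.Gamma ((j : ℝ) + l + 1 / 2) / (l.factorial : ℝ)

/-- the coefficients of the asymptotic expansion of `FF` in powers of `1 / T`. -/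
noncomputable def cR (q : ℝ) (m : ℕ) : ℝ :=
  ∑ k ∈ Finset.range (m + 1), dR q k * q ^ k * rR (1 - q / 2 - 3 * k) (m - k)

end Pool.Agent.H401R2.Fl
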