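import Mathlib
import Pool.Agent.H401R2.Fl.Defs

/-!
Stubs (exact statements) for the parallel tasks. Never import this file in a final file.
-/

open Complex MeasureTheory Set Filter Topology

namespace Pool.Agent.H401R2.Fl.Stubs

/-! Task A1 : the entire function AA -/

theorem AA_differentiable : Differentiable ℂ AA := by sorry

theorem AA_ode (z : ℂ) : deriv (deriv AA) z = z * AA z := by sorry

theorem AA_conj (z : ℂ) : AA ((starRingEnd ℂ) z) = (starRingEnd ℂ) (AA z) := by sorry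

theorem AA_decay (y : ℝ) : ∃ C : ℝ, ∀ x : ℝ, ‖AA (x + I * y)‖ ≤ C * Real.exp (-x)
    ∧ ‖deriv AA (x + I * y)‖ ≤ C * Real.exp (-x) := by sorry

theorem AA_rot (z : ℂ) : AA z + cexp (2 * Real.pi * I / 3) * AA (cexp (2 * Real.pi * I / 3) * z)
    + cexp (2 * Real.pi * I / 3) ^ 2 * AA (cexp (2 * Real.pi * I / 3) ^ 2 * z) = 0 := by sorry

/-! Task B1 : the function BB -/

theorem norm_BB_le {w : ℂ} (hw : 0 < w.re) : ‖BB w‖ ≤ Real.sqrt (Real.pi / w.re) := by sorry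

theorem BB_differentiableOn : DifferentiableOn ℂ BB {w | 0 < w.re} := by sorry

theorem BB_conj (w : ℂ) : BB ((starRingEnd ℂ) w) = (starRingEnd ℂ) (BB w) := by sorry

theorem AA_sq {w : ℂ} (hw : 0 < w.re) : AA (w ^ 2) = cexp (-(2 / 3) * w ^ 3) * BB w := by sorry

/-! Task B2 : asymptotic expansion of BB -/

theorem BB_expansion (c : ℝ) (hc : 0 < c) (K : ℕ) : ∃ C : ℝ, ∀ w : ℂ, 1 ≤ ‖w‖ → c * ‖w‖ ≤ w.re →
    ‖BB w * cexp (Complex.log w / 2) / (Real.sqrt Real.pi : ℂ)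
      - ∑ k ∈ Finset.range K, (bR k : ℂ) * ((w ^ 3)⁻¹) ^ k‖ ≤ C / ‖w‖ ^ (3 * K) := by sorry

/-! Task A2 : zeros -/

theorem AA_ne_zero (z : ℂ) (h : AA z = 0) : z.im = 0 ∧ z.re < 0 := by sorry

theorem AA_first_zero : ∃ a : ℝ, 0 < a ∧ AA (-(a : ℂ)) = 0 ∧ (∀ x : ℝ, -a < x → 0 < (AA (x : ℂ)).re)
    ∧ 0 < (deriv AA (-(a : ℂ))).re := by sorry

/-! Task B3 : the logarithm -/

theorem BB_ne_zero {w : ℂ} (hw : 0 < w.re) : BB w ≠ 0 := by sorry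

theorem BB_pos {x : ℝ} (hx : 0 < x) : (BB (x : ℂ)).im = 0 ∧ 0 < (BB (x : ℂ)).re := by sorry

theorem ell_differentiableOn : DifferentiableOn ℂ ell {w | 0 < w.re} := by sorry

theorem exp_ell {w : ℂ} (hw : 0 < w.re) : cexp (ell w) = BB w := by sorry

theorem ell_conj {w : ℂ} (hw : 0 < w.re) :
    ell ((starRingEnd ℂ) w) = (starRingEnd ℂ) (ell w) := by sorry

/-! Task B4 : asymptotic expansion of powers of BB -/

theorem ell_asymp (c : ℝ) (hc : 0 < c) : ∃ C W : ℝ, 0 < W ∧ ∀ w : ℂ, W ≤ ‖w‖ → c * ‖w‖ ≤ w.re →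
    ‖ell w + Complex.log w / 2 - ((Real.log Real.pi / 2 : ℝ) : ℂ)‖ ≤ C / ‖w‖ ^ 3 := by sorry

theorem power_expansion (q : ℝ) (c : ℝ) (hc : 0 < c) (K : ℕ) : ∃ C W : ℝ, 0 < W ∧
    ∀ w : ℂ, W ≤ ‖w‖ → c * ‖w‖ ≤ w.re →
    ‖cexp (q * (ell w + Complex.log w / 2 - ((Real.log Real.pi / 2 : ℝ) : ℂ)))
      - ∑ k ∈ Finset.range K, (dR q k : ℂ) * ((w ^ 3)⁻¹) ^ k‖ ≤ C / ‖w‖ ^ (3 * K) := by sorry

/-! Task L : primitives and analyticity in τ -/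

theorem norm_exp_ell_le {q : ℝ} (hq : 0 ≤ q) {w : ℂ} (hw : 1 ≤ w.re) :
    ‖cexp (q * ell w)‖ ≤ Real.pi ^ (q / 2) := by sorry

theorem GG_primitive (q : ℝ) (τ : ℂ) : ∃ P : ℂ → ℂ, ∀ w : ℂ, 0 < w.re →
    HasDerivAt P (GG q τ w) w := by sorry

theorem LL_differentiableOn {q : ℝ} (hq : 0 < q) :
    DifferentiableOn ℂ (LL q) {τ | 2 * q < τ.re} := by sorry

theorem LL_eq {q : ℝ} (hq : 0 < q) {τ : ℂ} (hτ : 2 * q < τ.re) (P : ℂ → ℂ)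
    (hP : ∀ w : ℂ, 0 < w.re → HasDerivAt P (GG q τ w) w) :
    ∃ A B : ℂ, Tendsto (fun x : ℝ => P (x : ℂ)) atTop (𝓝 A) ∧
      Tendsto (fun s : ℝ => P (1 + I * (s : ℂ))) atTop (𝓝 B) ∧ LL q τ = A - B := by sorry

/-! Task E1 : the imaginary part for real τ -/

theorem im_LL_lower {q : ℝ} (hq : 0 < q) (hs : Real.sin (Real.pi * q) ≠ 0) :
    ∃ b c t0 : ℝ, 0 < c ∧ ∀ t : ℝ, t0 ≤ t →
      c * Real.exp (-b * t) ≤ (LL q (t : ℂ)).im * Real.sin (Real.pi * q) := by sorry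

/-! Task E2 : the imaginary part on the ray arg τ = π/3 -/

theorem im_LL_upper {q : ℝ} (hq : 2 < q) : ∃ (C t0 : ℝ) (N : ℕ), ∀ t : ℝ, t0 ≤ t →
    |(cexp (I * (Real.pi * (q - 1) / 6)) * LL q (t * cexp (I * (Real.pi / 3)))).im|
      ≤ C * t ^ N * Real.exp (-(t ^ 3) / (3 * (q - 2) ^ 2)) := by sorry

/-! Task E3 : the Laplace lemma -/

theorem laplace (a : ℝ) (J : ℕ) : ∃ C : ℝ, ∀ R φ : ℝ, 1 ≤ R → 0 ≤ φ → φ ≤ Real.pi / 3 →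
    ‖(∫ r in (-(1 / 4) : ℝ)..(1 / 4), (1 + (r : ℂ) * cexp (-(3 * φ / 2) * I)) ^ (a : ℂ)
        * cexp (-(R * (r : ℂ) ^ 2) - (2 / 3) * R * (r : ℂ) ^ 3 * cexp (-(3 * φ / 2) * I)))
        * cexp (-(3 * φ / 2) * I)
      - ∑ j ∈ Finset.range J, (rR a j : ℂ)
          * cexp (-((j : ℂ) + 1 / 2) * (Real.log R + 3 * φ * I))‖ ≤ C * R ^ (-((J : ℝ) + 1 / 2)) := by
  sorry

/-! Task E4 : the uniform asymptotic expansion of FF -/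

theorem FF_expansion {q : ℝ} (hq : 0 < q) (m : ℕ) : ∃ C X : ℝ, ∀ x y : ℝ, X ≤ x → 0 ≤ y →
    y ≤ Real.pi / 3 →
    ‖FF q (x + y * I) - ∑ j ∈ Finset.range (m + 1), (cR q j : ℂ) * ((TT q (x + y * I))⁻¹) ^ j‖
      ≤ C / ‖TT q (x + y * I)‖ ^ (m + 1) := by sorry

/-! Task D : the dispersion relation -/

theorem cR_sign {q : ℝ} (hq : 2 < q) (hq2 : q < 4 + 2 * Real.sqrt 2)
    (hs : Real.sin (Real.pi * q) ≠ 0) :
    ∃ M : ℕ, ∀ m : ℕ, M ≤ m → cR q m * Real.sin (Real.pi * q) < 0 := by sorry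

end Pool.Agent.H401R2.Fl.Stubs
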