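import Mathlib
import Pool.Agent.H401R2.Fl.Defs
import Pool.Agent.H401R2.Fl.Stubs

/-!
Task B4 (helper363): asymptotics of the logarithm and of the powers of `BB`.
-/

set_option autoImplicit false

open Complex MeasureTheory Set Filter Topology

namespace Pool.Agent.H401R2.Fl

open Stubs (BB_expansion ell_differentiableOn exp_ell ell_conj)

/-- a continuous logarithm of `1` vanishing at `0` vanishes -/
theorem lift_unique {H : ℝ → ℂ} (hc : ContinuousOn H (Icc 0 1))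
    (h1 : ∀ t ∈ Icc (0 : ℝ) 1, cexp (H t) = 1) (h0 : H 0 = 0) : H 1 = 0 := by
  by_contra hne
  have hn : ∀ t ∈ Icc (0 : ℝ) 1, ∃ n : ℤ, ‖H t‖ = |(n : ℝ)| * (2 * Real.pi) := by
    intro t ht
    obtain ⟨n, hn⟩ := Complex.exp_eq_one_iff.mp (h1 t ht)
    refine ⟨n, ?_⟩
    rw [hn, norm_mul, norm_mul, norm_mul, Complex.norm_I, Complex.norm_real,
      Complex.norm_intCast, Real.norm_eq_abs, abs_of_pos Real.pi_pos]
    simp
  have hpi := Real.pi_pos
  have hbig : 2 * Real.pi ≤ ‖H 1‖ := by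
    obtain ⟨n, hn1⟩ := hn 1 (by simp)
    have hn0 : n ≠ 0 := by
      rintro rfl
      apply hne
      rw [← norm_eq_zero, hn1]
      simp
    have h2 : (1 : ℝ) ≤ |(n : ℝ)| := by
      have := Int.one_le_abs hn0
      exact_mod_cast this
    rw [hn1]
    nlinarith
  have hcn : ContinuousOn (fun t => ‖H t‖) (Icc 0 1) := hc.norm
  have hmem : Real.pi ∈ Icc (‖H 0‖) (‖H 1‖) := by
    rw [h0, norm_zero]
    exact ⟨hpi.le, by linarith⟩
  obtain ⟨t, ht, hte⟩ := intermediate_value_Icc zero_le_one hcn hmem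
  obtain ⟨n, hnt⟩ := hn t ht
  simp only at hte
  rw [hte] at hnt
  have h3 : |(n : ℝ)| * 2 = 1 := by
    have : Real.pi * (|(n : ℝ)| * 2) = Real.pi * 1 := by linarith
    exact mul_left_cancel₀ hpi.ne' this
  have h4 : |n| * 2 = 1 := by exact_mod_cast h3
  omega

/-- the slowly varying logarithm -/
noncomputable def Lam (w : ℂ) : ℂ := ell w + Complex.log w / 2 - ((Real.log Real.pi / 2 : ℝ) : ℂ)

/-- normalised `BB` -/
noncomputable def bb (w : ℂ) : ℂ := BB w * cexp (Complex.log w / 2) / (Real.sqrt Real.pi : ℂ)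

theorem exp_Lam {w : ℂ} (hw : 0 < w.re) : cexp (Lam w) = bb w := by
  unfold Lam bb
  rw [Complex.exp_sub, Complex.exp_add, exp_ell hw]
  congr 1
  rw [← Complex.ofReal_exp]
  congr 1
  rw [Real.sqrt_eq_rpow, Real.rpow_def_of_pos Real.pi_pos]
  congr 1
  ring

theorem slit_of_re {w : ℂ} (hw : 0 < w.re) : w ∈ Complex.slitPlane := Or.inl hw

theorem Lam_continuousOn : ContinuousOn Lam {w | 0 < w.re} := by
  unfold Lam
  refine (ell_differentiableOn.continuousOn.add ?_).sub continuousOn_const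
  refine ContinuousOn.div_const ?_ _
  intro w hw
  exact (Complex.differentiableAt_log (slit_of_re hw)).continuousAt.continuousWithinAt

theorem Lam_real {x : ℝ} (hx : 0 < x) : (Lam (x : ℂ)).im = 0 := by
  have h1 : (ell (x : ℂ)).im = 0 := by
    have h := ell_conj (w := (x : ℂ)) (by simpa using hx)
    rw [Complex.conj_ofReal] at h
    exact Complex.conj_eq_iff_im.mp h.symm
  unfold Lam
  rw [← Complex.ofReal_log hx.le, Complex.sub_im, Complex.add_im, h1, Complex.ofReal_im]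
  have : ((Real.log x : ℂ) / 2).im = 0 := by
    have : ((Real.log x : ℂ) / 2) = ((Real.log x / 2 : ℝ) : ℂ) := by push_cast; ring
    rw [this, Complex.ofReal_im]
  rw [this]
  ring

theorem norm_bb_sub (c : ℝ) (hc : 0 < c) : ∃ C W : ℝ, 1 ≤ W ∧ 0 ≤ C ∧ ∀ w : ℂ, W ≤ ‖w‖ →
    c * ‖w‖ ≤ w.re → ‖bb w - 1‖ ≤ C / ‖w‖ ^ 3 ∧ ‖bb w - 1‖ ≤ 1 / 2 := by
  obtain ⟨C, hC⟩ := BB_expansion c hc 1
  refine ⟨|C|, max 1 (2 * |C|), le_max_left _ _, abs_nonneg C, fun w hw hcw => ?_⟩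
  have hw1 : 1 ≤ ‖w‖ := (le_max_left _ _).trans hw
  have hw2 : 2 * |C| ≤ ‖w‖ := (le_max_right _ _).trans hw
  have h1 := hC w hw1 hcw
  have h2 : ‖bb w - 1‖ ≤ C / ‖w‖ ^ 3 := by
    unfold bb
    simpa [bR] using h1
  have h3 : 0 < ‖w‖ ^ 3 := by positivity
  have h4 : ‖bb w - 1‖ ≤ |C| / ‖w‖ ^ 3 :=
    h2.trans (div_le_div_of_nonneg_right (le_abs_self C) h3.le)
  refine ⟨h4, h4.trans ?_⟩
  rw [div_le_iff₀ h3]
  have h5 : ‖w‖ ≤ ‖w‖ ^ 3 := le_self_pow₀ hw1 (by norm_num)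
  linarith

theorem slit_of_norm {z : ℂ} (hz : ‖z - 1‖ ≤ 1 / 2) : z ∈ Complex.slitPlane := by
  apply slit_of_re
  have h1 := (abs_le.mp ((Complex.abs_re_le_norm (z - 1)).trans hz)).1
  rw [Complex.sub_re, Complex.one_re] at h1
  linarith

theorem Lam_eq_log (c : ℝ) (hc : 0 < c) : ∃ C W : ℝ, 1 ≤ W ∧ 0 ≤ C ∧ ∀ w : ℂ, W ≤ ‖w‖ →
    c * ‖w‖ ≤ w.re → ‖bb w - 1‖ ≤ C / ‖w‖ ^ 3 ∧ ‖bb w - 1‖ ≤ 1 / 2 ∧
      Lam w = Complex.log (bb w) := by
  obtain ⟨C, W, hW, hC0, hC⟩ := norm_bb_sub c hc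
  refine ⟨C, W, hW, hC0, fun w hw hcw => ⟨(hC w hw hcw).1, (hC w hw hcw).2, ?_⟩⟩
  have hw1 : 1 ≤ ‖w‖ := hW.trans hw
  have hwre : 0 < w.re := lt_of_lt_of_le (by positivity) hcw
  set γ : ℝ → ℂ := fun t => (‖w‖ : ℂ) * cexp (((t * Complex.arg w : ℝ) : ℂ) * I) with hγ
  have hγn : ∀ t, ‖γ t‖ = ‖w‖ := by
    intro t
    rw [hγ]
    simp only
    rw [norm_mul, Complex.norm_exp_ofReal_mul_I, mul_one, Complex.norm_real, norm_norm]
  have hγre : ∀ t, (γ t).re = ‖w‖ * Real.cos (t * Complex.arg w) := by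
    intro t
    rw [hγ]
    simp only
    rw [Complex.re_ofReal_mul, Complex.exp_ofReal_mul_I_re]
  have hγ1 : γ 1 = w := by
    rw [hγ]
    simp only [one_mul]
    exact Complex.norm_mul_exp_arg_mul_I w
  have hγ0 : γ 0 = (‖w‖ : ℂ) := by
    rw [hγ]
    simp
  have hre : ∀ t ∈ Icc (0 : ℝ) 1, w.re ≤ (γ t).re := by
    intro t ht
    have e1 : w.re = ‖w‖ * Real.cos (Complex.arg w) := by
      conv_lhs => rw [← hγ1]
      rw [hγre]
      simp
    rw [hγre, e1]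
    apply mul_le_mul_of_nonneg_left _ (norm_nonneg w)
    rw [← Real.cos_abs (Complex.arg w), ← Real.cos_abs (t * Complex.arg w)]
    apply Real.cos_le_cos_of_nonneg_of_le_pi (abs_nonneg _) (Complex.abs_arg_le_pi w)
    rw [abs_mul, abs_of_nonneg ht.1]
    nlinarith [abs_nonneg (Complex.arg w), ht.2]
  have hpos : ∀ t ∈ Icc (0 : ℝ) 1, 0 < (γ t).re := fun t ht => lt_of_lt_of_le hwre (hre t ht)
  have hbb : ∀ t ∈ Icc (0 : ℝ) 1, ‖bb (γ t) - 1‖ ≤ 1 / 2 := by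
    intro t ht
    refine (hC (γ t) (by rw [hγn]; exact hw) ?_).2
    rw [hγn]
    exact hcw.trans (hre t ht)
  have hγc : Continuous γ := by
    rw [hγ]
    fun_prop
  have hLc : ContinuousOn (fun t => Lam (γ t)) (Icc 0 1) :=
    Lam_continuousOn.comp hγc.continuousOn hpos
  have hlogc : ContinuousOn (fun t => Complex.log (bb (γ t))) (Icc 0 1) := by
    have h1 : ContinuousOn (fun t => bb (γ t)) (Icc 0 1) := by
      refine hLc.cexp.congr fun t ht => ?_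
      exact (exp_Lam (hpos t ht)).symm
    exact h1.clog fun t ht => slit_of_norm (hbb t ht)
  have hH := lift_unique (H := fun t => Lam (γ t) - Complex.log (bb (γ t))) (hLc.sub hlogc) ?_ ?_
  · simp only [hγ1] at hH
    exact sub_eq_zero.mp hH
  · intro t ht
    have hne : bb (γ t) ≠ 0 := by
      rw [← exp_Lam (hpos t ht)]
      exact Complex.exp_ne_zero _
    rw [Complex.exp_sub, exp_Lam (hpos t ht), Complex.exp_log hne, div_self hne]
  · rw [hγ0]
    have hw0 : 0 < ‖w‖ := by linarith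
    have hr := Lam_real hw0
    rw [← exp_Lam (w := (‖w‖ : ℂ)) (by simpa using hw0)]
    rw [Complex.log_exp (by rw [hr]; linarith [Real.pi_pos]) (by rw [hr]; exact Real.pi_pos.le)]
    ring

theorem norm_log_le {z : ℂ} (hz : ‖z - 1‖ ≤ 1 / 2) : ‖Complex.log z‖ ≤ 3 / 2 * ‖z - 1‖ := by
  have h := Complex.norm_log_one_add_half_le_self hz
  rwa [add_sub_cancel] at h

theorem ell_asymp (c : ℝ) (hc : 0 < c) : ∃ C W : ℝ, 0 < W ∧ ∀ w : ℂ, W ≤ ‖w‖ → c * ‖w‖ ≤ w.re →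
    ‖ell w + Complex.log w / 2 - ((Real.log Real.pi / 2 : ℝ) : ℂ)‖ ≤ C / ‖w‖ ^ 3 := by
  obtain ⟨C, W, hW, hC0, hC⟩ := Lam_eq_log c hc
  refine ⟨3 / 2 * C, W, by linarith, fun w hw hcw => ?_⟩
  obtain ⟨h1, h2, h3⟩ := hC w hw hcw
  have h4 : ‖Lam w‖ ≤ 3 / 2 * C / ‖w‖ ^ 3 := by
    rw [h3]
    refine (norm_log_le h2).trans ?_
    rw [mul_div_assoc]
    gcongr
  exact h4

/-! ### powers -/

open Polynomial in
/-- truncated series of `BB` -/
noncomputable def PP (K : ℕ) : ℂ[X] := ∑ k ∈ Finset.range K, C (bR k : ℂ) * X ^ k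

open Polynomial in
/-- truncated series of the power -/
noncomputable def QQ (q : ℝ) (K : ℕ) : ℂ[X] := ∑ k ∈ Finset.range K, C (dR q k : ℂ) * X ^ k

theorem coeff_PP (K n : ℕ) : (PP K).coeff n = if n < K then (bR n : ℂ) else 0 := by
  unfold PP
  rw [Polynomial.finsetSum_coeff]
  simp only [Polynomial.coeff_C_mul_X_pow]
  rw [Finset.sum_ite_eq]
  simp only [Finset.mem_range]

theorem coeff_QQ (q : ℝ) (K n : ℕ) : (QQ q K).coeff n = if n < K then (dR q n : ℂ) else 0 := by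
  unfold QQ
  rw [Polynomial.finsetSum_coeff]
  simp only [Polynomial.coeff_C_mul_X_pow]
  rw [Finset.sum_ite_eq]
  simp only [Finset.mem_range]

theorem eval_PP (K : ℕ) (y : ℂ) : (PP K).eval y = ∑ k ∈ Finset.range K, (bR k : ℂ) * y ^ k := by
  unfold PP
  rw [Polynomial.eval_finsetSum]
  simp

theorem eval_QQ (q : ℝ) (K : ℕ) (y : ℂ) :
    (QQ q K).eval y = ∑ k ∈ Finset.range K, (dR q k : ℂ) * y ^ k := by
  unfold QQ
  rw [Polynomial.eval_finsetSum]
  simp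

/-- the recursion for `dR` -/
theorem dR_rec (q : ℝ) (k : ℕ) : ((k : ℝ) + 1) * dR q (k + 1) =
    ∑ j ∈ Finset.range (k + 1), (((j : ℝ) + 1) * q - ((k : ℝ) - (j : ℝ))) * bR (j + 1)
      * dR q (k - j) := by
  rw [dR, Finset.sum_fin_eq_sum_range]
  rw [mul_div_cancel₀ _ (by positivity : (k : ℝ) + 1 ≠ 0)]
  refine Finset.sum_congr rfl fun j hj => ?_
  rw [dif_pos (Finset.mem_range.mp hj)]

open Polynomial in
theorem ode_dvd (q : ℝ) (K : ℕ) : (X : ℂ[X]) ^ (K - 1) ∣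
    PP K * derivative (QQ q K) - C (q : ℂ) * derivative (PP K) * QQ q K := by
  rw [Polynomial.X_pow_dvd_iff]
  intro k hk
  have hk1 : k + 1 < K := by omega
  rw [Polynomial.coeff_sub, mul_assoc, Polynomial.coeff_C_mul, Polynomial.coeff_mul,
    Polynomial.coeff_mul, Finset.Nat.sum_antidiagonal_eq_sum_range_succ_mk,
    Finset.Nat.sum_antidiagonal_eq_sum_range_succ_mk]
  simp only
  have e1 : ∑ i ∈ Finset.range (k + 1), (PP K).coeff i * (derivative (QQ q K)).coeff (k - i)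
      = ∑ i ∈ Finset.range (k + 1), (bR i : ℂ) * ((dR q (k - i + 1) : ℂ) * ((k - i : ℕ) + 1)) := by
    refine Finset.sum_congr rfl fun i hi => ?_
    have hi' := Finset.mem_range.mp hi
    rw [coeff_PP, if_pos (by omega), coeff_derivative, coeff_QQ, if_pos (by omega)]
  have e2 : ∑ i ∈ Finset.range (k + 1), (derivative (PP K)).coeff i * (QQ q K).coeff (k - i)
      = ∑ i ∈ Finset.range (k + 1), ((bR (i + 1) : ℂ) * ((i : ℕ) + 1)) * (dR q (k - i) : ℂ) := by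
    refine Finset.sum_congr rfl fun i hi => ?_
    have hi' := Finset.mem_range.mp hi
    rw [coeff_QQ, if_pos (by omega), coeff_derivative, coeff_PP, if_pos (by omega)]
  rw [e1, e2]
  have hrec := dR_rec q k
  have hrec' : ((k : ℂ) + 1) * (dR q (k + 1) : ℂ) =
      ∑ j ∈ Finset.range (k + 1), (((j : ℂ) + 1) * q - ((k : ℂ) - (j : ℂ))) * bR (j + 1)
      * dR q (k - j) := by
    have := congrArg (fun x : ℝ => (x : ℂ)) hrec
    push_cast at this
    exact this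
  have hb0 : bR 0 = 1 := by simp [bR]
  rw [Finset.sum_range_succ'] 
  simp only [Nat.sub_zero, hb0, Complex.ofReal_one, one_mul]
  rw [Finset.mul_sum]
  have e3 : ∑ i ∈ Finset.range k, (bR (i + 1) : ℂ) * ((dR q (k - (i + 1) + 1) : ℂ)
      * ((k - (i + 1) : ℕ) + 1)) = ∑ j ∈ Finset.range (k + 1),
        ((k : ℂ) - (j : ℂ)) * bR (j + 1) * dR q (k - j) := by
    rw [Finset.sum_range_succ]
    simp only [sub_self, zero_mul, add_zero]
    refine Finset.sum_congr rfl fun i hi => ?_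
    have hi' := Finset.mem_range.mp hi
    have e4 : k - (i + 1) + 1 = k - i := by omega
    have e5 : (((k - (i + 1) : ℕ) : ℂ) + 1) = (k : ℂ) - (i : ℂ) := by
      rw [Nat.cast_sub (by omega)]
      push_cast
      ring
    rw [e4, e5]
    ring
  rw [e3]
  have e6 : (dR q (k + 1) : ℂ) * ((k : ℂ) + 1) = ((k : ℂ) + 1) * (dR q (k + 1) : ℂ) := mul_comm _ _
  rw [e6, hrec', ← Finset.sum_add_distrib, ← Finset.sum_sub_distrib]
  refine Finset.sum_eq_zero fun j _ => ?_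
  ring

theorem exists_bound_poly (p : Polynomial ℂ) : ∃ C : ℝ, 0 ≤ C ∧ ∀ y : ℂ, ‖y‖ ≤ 1 → ‖p.eval y‖ ≤ C := by
  have hc : IsCompact (Metric.closedBall (0 : ℂ) 1) := isCompact_closedBall _ _
  obtain ⟨C, hC⟩ := hc.exists_bound_of_continuousOn p.continuous.continuousOn
  refine ⟨max C 0, le_max_right _ _, fun y hy => (hC y ?_).trans (le_max_left _ _)⟩
  simpa using hy

/-- power function on the disc -/
theorem norm_exp_log_le (q : ℝ) {z : ℂ} (hz : ‖z - 1‖ ≤ 1 / 2) :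
    ‖cexp (q * Complex.log z)‖ ≤ Real.exp |q| := by
  rw [Complex.norm_exp]
  apply Real.exp_le_exp.mpr
  refine (Complex.re_le_norm _).trans ?_
  rw [norm_mul, Complex.norm_real, Real.norm_eq_abs]
  have h1 := norm_log_le hz
  have h2 : ‖Complex.log z‖ ≤ 1 := by linarith
  nlinarith [abs_nonneg q]

theorem norm_inv_le {z : ℂ} (hz : ‖z - 1‖ ≤ 1 / 2) : ‖z⁻¹‖ ≤ 2 := by
  rw [norm_inv]
  have h1 : 1 / 2 ≤ ‖z‖ := by
    have := norm_sub_norm_le (1 : ℂ) z
    rw [norm_one, norm_sub_rev] at this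
    linarith
  rw [inv_le_comm₀ (by linarith) (by norm_num)]
  linarith

theorem exp_log_lip (q : ℝ) {z z' : ℂ} (hz : ‖z - 1‖ ≤ 1 / 2) (hz' : ‖z' - 1‖ ≤ 1 / 2) :
    ‖cexp (q * Complex.log z) - cexp (q * Complex.log z')‖
      ≤ Real.exp |q| * (|q| * 2) * ‖z - z'‖ := by
  have hconv : Convex ℝ (Metric.closedBall (1 : ℂ) (1 / 2)) := convex_closedBall _ _
  have hd : ∀ x ∈ Metric.closedBall (1 : ℂ) (1 / 2),
      HasDerivWithinAt (fun z : ℂ => cexp (q * Complex.log z))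
        (cexp (q * Complex.log x) * (q * x⁻¹)) (Metric.closedBall (1 : ℂ) (1 / 2)) x := by
    intro x hx
    rw [Metric.mem_closedBall, dist_eq_norm] at hx
    have h1 := (Complex.hasDerivAt_log (slit_of_norm hx)).const_mul (q : ℂ)
    exact h1.cexp.hasDerivWithinAt
  refine Convex.norm_image_sub_le_of_norm_hasDerivWithin_le hd ?_ hconv ?_ ?_
  · intro x hx
    rw [Metric.mem_closedBall, dist_eq_norm] at hx
    rw [norm_mul, norm_mul, Complex.norm_real, Real.norm_eq_abs]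
    gcongr
    · exact norm_exp_log_le q hx
    · exact norm_inv_le hx
  · rw [Metric.mem_closedBall, dist_eq_norm]; exact hz'
  · rw [Metric.mem_closedBall, dist_eq_norm]; exact hz

/-- comparison of the truncated series -/
theorem series_power (q : ℝ) (K : ℕ) (hK : 1 ≤ K) : ∃ C y₀ : ℝ, 0 < y₀ ∧ y₀ ≤ 1 ∧ ∀ y : ℂ,
    ‖y‖ ≤ y₀ → ‖(PP K).eval y - 1‖ ≤ 1 / 2 ∧
      ‖cexp (q * Complex.log ((PP K).eval y)) - (QQ q K).eval y‖ ≤ C * ‖y‖ ^ K := by
  obtain ⟨M, hM⟩ := ode_dvd q K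
  obtain ⟨CM, hCM0, hCM⟩ := exists_bound_poly M
  have hP0 : (PP K).eval 0 = 1 := by
    rw [← Polynomial.coeff_zero_eq_eval_zero, coeff_PP, if_pos (by omega)]
    simp [bR]
  have hQ0 : (QQ q K).eval 0 = 1 := by
    rw [← Polynomial.coeff_zero_eq_eval_zero, coeff_QQ, if_pos (by omega)]
    simp [dR]
  have hcont : ContinuousAt (fun y : ℂ => (PP K).eval y) 0 := (PP K).continuous.continuousAt
  rw [Metric.continuousAt_iff] at hcont
  obtain ⟨y₁, hy₁, hy₁'⟩ := hcont (1 / 2) (by norm_num)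
  have hsmall : ∀ y : ℂ, ‖y‖ ≤ min 1 (y₁ / 2) → ‖(PP K).eval y - 1‖ ≤ 1 / 2 := by
    intro y hy
    have h1 : dist y 0 < y₁ := by
      rw [dist_zero_right]
      have := hy.trans (min_le_right _ _)
      linarith
    have h2 := hy₁' h1
    rw [hP0, dist_eq_norm] at h2
    exact h2.le
  refine ⟨Real.exp |q| * (Real.exp |-q| * (2 * CM)), min 1 (y₁ / 2), by positivity, min_le_left _ _,
    fun y hy => ⟨hsmall y hy, ?_⟩⟩
  set h : ℂ → ℂ := fun y =>
    (QQ q K).eval y * cexp (((-q : ℝ) : ℂ) * Complex.log ((PP K).eval y)) with hh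
  have hball : ∀ x ∈ Metric.closedBall (0 : ℂ) ‖y‖, ‖x‖ ≤ min 1 (y₁ / 2) := by
    intro x hx
    rw [mem_closedBall_zero_iff] at hx
    exact hx.trans hy
  have hd : ∀ x ∈ Metric.closedBall (0 : ℂ) ‖y‖, HasDerivWithinAt h
      (cexp (((-q : ℝ) : ℂ) * Complex.log ((PP K).eval x)) * ((PP K).eval x)⁻¹ *
        (x ^ (K - 1) * M.eval x)) (Metric.closedBall (0 : ℂ) ‖y‖) x := by
    intro x hx
    have hs := hsmall x (hball x hx)
    have hne : (PP K).eval x ≠ 0 := Complex.slitPlane_ne_zero (slit_of_norm hs)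
    have h1 := (QQ q K).hasDerivAt x
    have h2 := (PP K).hasDerivAt x
    have h3 : HasDerivAt (fun y : ℂ => Complex.log ((PP K).eval y))
        ((Polynomial.derivative (PP K)).eval x / (PP K).eval x) x := h2.clog (slit_of_norm hs)
    have h4 := (h3.const_mul ((-q : ℝ) : ℂ)).cexp
    have h5 := h1.mul h4
    refine (h5.congr_deriv ?_).hasDerivWithinAt
    have hN := congrArg (Polynomial.eval x) hM
    simp only [Polynomial.eval_sub, Polynomial.eval_mul, Polynomial.eval_C, Polynomial.eval_pow,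
      Polynomial.eval_X] at hN
    rw [← hN]
    push_cast
    field_simp
    ring
  have hbd : ∀ x ∈ Metric.closedBall (0 : ℂ) ‖y‖,
      ‖cexp (((-q : ℝ) : ℂ) * Complex.log ((PP K).eval x)) * ((PP K).eval x)⁻¹ *
        (x ^ (K - 1) * M.eval x)‖ ≤ Real.exp |-q| * 2 * (‖y‖ ^ (K - 1) * CM) := by
    intro x hx
    have hs := hsmall x (hball x hx)
    have hx1 : ‖x‖ ≤ 1 := (hball x hx).trans (min_le_left _ _)
    rw [mem_closedBall_zero_iff] at hx
    rw [norm_mul, norm_mul, norm_mul, norm_pow]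
    have h6 := norm_exp_log_le (-q) hs
    have h7 := norm_inv_le hs
    have h8 := hCM x hx1
    gcongr
  have hmv := Convex.norm_image_sub_le_of_norm_hasDerivWithin_le hd hbd
    (convex_closedBall _ _) (x := 0) (y := y) (by simp) (by simp)
  have hh0 : h 0 = 1 := by
    rw [hh]
    simp only
    rw [hP0, hQ0, Complex.log_one, mul_zero, Complex.exp_zero, mul_one]
  rw [hh0, sub_zero] at hmv
  have e1 : cexp (q * Complex.log ((PP K).eval y)) - (QQ q K).eval y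
      = -(cexp (q * Complex.log ((PP K).eval y)) * (h y - 1)) := by
    rw [hh]
    simp only
    have e2 : cexp (q * Complex.log ((PP K).eval y))
        * cexp (((-q : ℝ) : ℂ) * Complex.log ((PP K).eval y)) = 1 := by
      rw [← Complex.exp_add]
      push_cast
      rw [neg_mul, add_neg_cancel, Complex.exp_zero]
    linear_combination ((QQ q K).eval y) * e2
  rw [e1, norm_neg, norm_mul]
  have h9 := norm_exp_log_le q (hsmall y hy)
  have e3 : ‖y‖ ^ K = ‖y‖ ^ (K - 1) * ‖y‖ := by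
    rw [← pow_succ]
    congr 1
    omega
  calc ‖cexp (q * Complex.log ((PP K).eval y))‖ * ‖h y - 1‖
      ≤ Real.exp |q| * (Real.exp |-q| * 2 * (‖y‖ ^ (K - 1) * CM) * ‖y‖) := by gcongr
    _ = Real.exp |q| * (Real.exp |-q| * (2 * CM)) * ‖y‖ ^ K := by rw [e3]; ring

theorem power_expansion_succ (q : ℝ) (c : ℝ) (hc : 0 < c) (K : ℕ) (hK : 1 ≤ K) :
    ∃ C W : ℝ, 1 ≤ W ∧ 0 ≤ C ∧
    ∀ w : ℂ, W ≤ ‖w‖ → c * ‖w‖ ≤ w.re →
    ‖cexp (q * (ell w + Complex.log w / 2 - ((Real.log Real.pi / 2 : ℝ) : ℂ)))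
      - ∑ k ∈ Finset.range K, (dR q k : ℂ) * ((w ^ 3)⁻¹) ^ k‖ ≤ C / ‖w‖ ^ (3 * K) := by
  obtain ⟨C₁, W₁, hW₁, -, h₁⟩ := Lam_eq_log c hc
  obtain ⟨C₂, h₂⟩ := BB_expansion c hc K
  obtain ⟨C₃, y₀, hy₀, hy₁, h₃⟩ := series_power q K hK
  refine ⟨|Real.exp |q| * (|q| * 2) * C₂ + C₃|, max W₁ y₀⁻¹, hW₁.trans (le_max_left _ _),
    abs_nonneg _, fun w hw hcw => ?_⟩
  have hw1 : W₁ ≤ ‖w‖ := (le_max_left _ _).trans hw
  have hw2 : y₀⁻¹ ≤ ‖w‖ := (le_max_right _ _).trans hw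
  have hw3 : 1 ≤ ‖w‖ := hW₁.trans hw1
  have hw0 : 0 < ‖w‖ := by linarith
  obtain ⟨ha, hb, hL⟩ := h₁ w hw1 hcw
  have hE := h₂ w hw3 hcw
  set y : ℂ := (w ^ 3)⁻¹ with hy
  have hyn : ‖y‖ = (‖w‖ ^ 3)⁻¹ := by rw [hy, norm_inv, norm_pow]
  have hyK : ‖y‖ ^ K = 1 / ‖w‖ ^ (3 * K) := by
    rw [hyn, inv_pow, ← pow_mul, one_div]
  have hysmall : ‖y‖ ≤ y₀ := by
    rw [hyn, inv_le_comm₀ (by positivity) hy₀]
    exact hw2.trans (le_self_pow₀ hw3 (by norm_num))
  obtain ⟨hP, hS⟩ := h₃ y hysmall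
  have hbP : ‖bb w - (PP K).eval y‖ ≤ C₂ / ‖w‖ ^ (3 * K) := by
    rw [eval_PP]
    exact hE
  have hlip := exp_log_lip q hb hP
  rw [← eval_QQ]
  have hgoal : ‖cexp (q * Lam w) - (QQ q K).eval y‖
      ≤ (Real.exp |q| * (|q| * 2) * C₂ + C₃) / ‖w‖ ^ (3 * K) := by
    rw [hL]
    calc ‖cexp (q * Complex.log (bb w)) - (QQ q K).eval y‖
        ≤ ‖cexp (q * Complex.log (bb w)) - cexp (q * Complex.log ((PP K).eval y))‖
          + ‖cexp (q * Complex.log ((PP K).eval y)) - (QQ q K).eval y‖ := by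
          have := norm_add_le
            (cexp (q * Complex.log (bb w)) - cexp (q * Complex.log ((PP K).eval y)))
            (cexp (q * Complex.log ((PP K).eval y)) - (QQ q K).eval y)
          simpa using this
      _ ≤ Real.exp |q| * (|q| * 2) * (C₂ / ‖w‖ ^ (3 * K)) + C₃ * ‖y‖ ^ K := by
          gcongr
          exact hlip.trans (by gcongr)
      _ = _ := by rw [hyK]; ring
  refine le_trans hgoal ?_
  gcongr
  exact le_abs_self _

theorem power_expansion (q : ℝ) (c : ℝ) (hc : 0 < c) (K : ℕ) : ∃ C W : ℝ, 0 < W ∧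
    ∀ w : ℂ, W ≤ ‖w‖ → c * ‖w‖ ≤ w.re →
    ‖cexp (q * (ell w + Complex.log w / 2 - ((Real.log Real.pi / 2 : ℝ) : ℂ)))
      - ∑ k ∈ Finset.range K, (dR q k : ℂ) * ((w ^ 3)⁻¹) ^ k‖ ≤ C / ‖w‖ ^ (3 * K) := by
  rcases Nat.eq_zero_or_pos K with hK | hK
  · subst hK
    obtain ⟨C, W, hW, hC0, h⟩ := power_expansion_succ q c hc 1 le_rfl
    refine ⟨C + 1, W, by linarith, fun w hw hcw => ?_⟩
    have h1 := h w hw hcw
    simp only [Finset.range_one, Finset.sum_singleton, pow_zero, mul_one, Finset.range_zero,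
      Finset.sum_empty, sub_zero, mul_zero, div_one] at h1 ⊢
    have hd : dR q 0 = 1 := by rw [dR]
    rw [hd, Complex.ofReal_one] at h1
    have hw3 : 1 ≤ ‖w‖ := hW.trans hw
    have h2 : C / ‖w‖ ^ 3 ≤ C := div_le_self hC0 (one_le_pow₀ hw3)
    have h3 := norm_sub_norm_le
      (cexp (q * (ell w + Complex.log w / 2 - ((Real.log Real.pi / 2 : ℝ) : ℂ)))) 1
    rw [norm_one] at h3
    linarith
  · obtain ⟨C, W, hW, -, h⟩ := power_expansion_succ q c hc K hK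
    exact ⟨C, W, by linarith, h⟩

end Pool.Agent.H401R2.Fl
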