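import Mathlib
import Pool.Agent.H401R2.Fl.Defs

/-!
Task E3 (helper847): the Laplace lemma with complex direction.
-/

open Complex MeasureTheory Set Filter Topology

namespace Pool.Agent.H401R2.Fl

namespace E3

/-! ### the binomial expansion -/

/-- binomial coefficient -/
noncomputable def bc (a : ℝ) (i : ℕ) : ℝ :=
  (∏ s ∈ Finset.range i, (a - (s : ℝ))) / (i.factorial : ℝ)

theorem bc_zero (a : ℝ) : bc a 0 = 1 := by
  simp [bc]

theorem bc_succ (a : ℝ) (i : ℕ) : ((i : ℝ) + 1) * bc a (i + 1) = a * bc (a - 1) i := by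
  unfold bc
  rw [Finset.prod_range_succ', Nat.factorial_succ]
  have h1 : (i.factorial : ℝ) ≠ 0 := by exact_mod_cast i.factorial_ne_zero
  have h2 : ((i : ℝ) + 1) ≠ 0 := by positivity
  have h3 : ∏ k ∈ Finset.range i, (a - ((k + 1 : ℕ) : ℝ)) =
      ∏ s ∈ Finset.range i, (a - 1 - (s : ℝ)) := by
    refine Finset.prod_congr rfl fun k _ => ?_
    push_cast
    ring
  rw [h3]
  push_cast
  field_simp
  ring

theorem slit {ν : ℂ} (h : ‖ν‖ ≤ 1 / 4) : 1 + ν ∈ slitPlane := by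
  left
  have h1 : |ν.re| ≤ 1 / 4 := (abs_re_le_norm ν).trans h
  have h2 := (abs_le.1 h1).1
  simp only [add_re, one_re]
  linarith

theorem taylor1 (m : ℕ) : ∀ a : ℝ, ∃ C : ℝ, 0 ≤ C ∧ ∀ ν : ℂ, ‖ν‖ ≤ 1 / 4 →
    ‖(1 + ν) ^ (a : ℂ) - ∑ i ∈ Finset.range m, (bc a i : ℂ) * ν ^ i‖ ≤ C * ‖ν‖ ^ m := by
  induction m with
  | zero =>
    intro a
    have hc : ContinuousOn (fun ν : ℂ => (1 + ν) ^ (a : ℂ)) (Metric.closedBall 0 (1 / 4)) := by
      intro ν hν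
      have h1 : ‖ν‖ ≤ 1 / 4 := by simpa using hν
      have h2 : ContinuousAt (fun ν : ℂ => (1 + ν) ^ (a : ℂ)) ν :=
        ContinuousAt.cpow (by fun_prop) continuousAt_const (slit h1)
      exact h2.continuousWithinAt
    obtain ⟨C, hC⟩ := (isCompact_closedBall (0 : ℂ) (1 / 4)).exists_bound_of_continuousOn hc
    refine ⟨max C 0, le_max_right _ _, fun ν hν => ?_⟩
    have h1 := hC ν (by simpa using hν)
    simpa using h1.trans (le_max_left C 0)
  | succ m ih =>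
    intro a
    obtain ⟨C, hC0, hC⟩ := ih (a - 1)
    refine ⟨|a| * C, by positivity, fun ν hν => ?_⟩
    set g : ℂ → ℂ := fun w => (1 + w) ^ (a : ℂ) -
      ∑ i ∈ Finset.range (m + 1), (bc a i : ℂ) * w ^ i with hg
    set g' : ℂ → ℂ := fun w => (a : ℂ) * ((1 + w) ^ ((a - 1 : ℝ) : ℂ) -
      ∑ i ∈ Finset.range m, (bc (a - 1) i : ℂ) * w ^ i) with hg'
    have hder : ∀ w : ℂ, ‖w‖ ≤ 1 / 4 → HasDerivAt g (g' w) w := by
      intro w hw
      have e1 : HasDerivAt (fun w : ℂ => 1 + w) 1 w := by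
        simpa using (hasDerivAt_id w).const_add 1
      have d1 := e1.cpow_const (c := (a : ℂ)) (slit hw)
      have d2 : HasDerivAt (fun w : ℂ => ∑ i ∈ Finset.range (m + 1), (bc a i : ℂ) * w ^ i)
          (∑ i ∈ Finset.range (m + 1), (bc a i : ℂ) * ((i : ℂ) * w ^ (i - 1))) w :=
        HasDerivAt.fun_sum fun i _ => (hasDerivAt_pow i w).const_mul _
      refine (d1.sub d2).congr_deriv ?_
      rw [hg']
      simp only
      rw [Finset.sum_range_succ', mul_sub, Finset.mul_sum]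
      push_cast
      simp only [mul_one, zero_mul, mul_zero, add_zero]
      congr 1
      refine Finset.sum_congr rfl fun i _ => ?_
      have h3 := bc_succ a i
      have h4 : ((i : ℂ) + 1) * (bc a (i + 1) : ℂ) = (a : ℂ) * (bc (a - 1) i : ℂ) := by
        exact_mod_cast h3
      linear_combination (w ^ i) * h4
    have hb : ∀ w ∈ Metric.closedBall (0 : ℂ) ‖ν‖, ‖g' w‖ ≤ |a| * C * ‖ν‖ ^ m := by
      intro w hw
      have h1 : ‖w‖ ≤ ‖ν‖ := by simpa using hw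
      have h2 := hC w (h1.trans hν)
      rw [hg']
      simp only
      rw [norm_mul, Complex.norm_real, Real.norm_eq_abs, mul_assoc]
      apply mul_le_mul_of_nonneg_left _ (abs_nonneg a)
      refine h2.trans ?_
      gcongr
    have hmv := (convex_closedBall (0 : ℂ) ‖ν‖).norm_image_sub_le_of_norm_hasDerivWithin_le
      (f := g) (f' := g') (C := |a| * C * ‖ν‖ ^ m) (x := 0) (y := ν)
      (fun w hw => (hder w (le_trans (by simpa using hw) hν)).hasDerivWithinAt) hb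
      (by simp) (by simp)
    have h0 : g 0 = 0 := by
      rw [hg]
      simp only
      rw [Finset.sum_range_succ']
      simp [bc_zero]
    rw [h0, sub_zero, sub_zero] at hmv
    refine hmv.trans (le_of_eq ?_)
    rw [pow_succ]
    ring

/-! ### Gaussian moments on `[-1/4, 1/4]` -/

/-- truncated Gaussian moment -/
noncomputable def mm (b : ℝ) (p : ℕ) : ℝ :=
  ∫ r in (-(1 / 4) : ℝ)..(1 / 4), r ^ p * Real.exp (-(b * r ^ 2))

theorem mm_cont (b : ℝ) (p : ℕ) : Continuous fun r : ℝ => r ^ p * Real.exp (-(b * r ^ 2)) := by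
  fun_prop

theorem mm_odd (b : ℝ) (k : ℕ) : mm b (2 * k + 1) = 0 := by
  have h := intervalIntegral.integral_comp_neg (a := (-(1 / 4) : ℝ)) (b := 1 / 4)
    (fun r : ℝ => r ^ (2 * k + 1) * Real.exp (-(b * r ^ 2)))
  rw [neg_neg] at h
  have h2 : ∀ r : ℝ, (-r) ^ (2 * k + 1) * Real.exp (-(b * (-r) ^ 2)) =
      -(r ^ (2 * k + 1) * Real.exp (-(b * r ^ 2))) := by
    intro r
    rw [Odd.neg_pow ⟨k, rfl⟩, neg_sq]
    ring
  simp only [h2] at h
  rw [intervalIntegral.integral_neg] at h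
  unfold mm
  linarith

theorem mm_even (b : ℝ) (k : ℕ) :
    mm b (2 * k) = 2 * ∫ r in (0 : ℝ)..(1 / 4), r ^ (2 * k) * Real.exp (-(b * r ^ 2)) := by
  have h := intervalIntegral.integral_comp_neg (a := (0 : ℝ)) (b := 1 / 4)
    (fun r : ℝ => r ^ (2 * k) * Real.exp (-(b * r ^ 2)))
  have h2 : ∀ r : ℝ, (-r) ^ (2 * k) * Real.exp (-(b * (-r) ^ 2)) =
      r ^ (2 * k) * Real.exp (-(b * r ^ 2)) := by
    intro r
    rw [Even.neg_pow ⟨k, by ring⟩, neg_sq]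
  simp only [h2, neg_zero] at h
  unfold mm
  rw [← intervalIntegral.integral_add_adjacent_intervals (b := 0)
    ((mm_cont b (2 * k)).intervalIntegrable _ _) ((mm_cont b (2 * k)).intervalIntegrable _ _), ← h]
  ring

theorem int_half {b : ℝ} (hb : 0 < b) (k : ℕ) :
    ∫ r in Ioi (0 : ℝ), r ^ (2 * k) * Real.exp (-(b * r ^ 2)) =
      1 / 2 * (Real.Gamma ((k : ℝ) + 1 / 2) * b ^ (-((k : ℝ) + 1 / 2))) := by
  have h := _root_.integral_rpow_mul_exp_neg_mul_rpow (p := 2) (q := ((2 * k : ℕ) : ℝ)) (b := b)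
    (by norm_num) (by have : (0 : ℝ) ≤ ((2 * k : ℕ) : ℝ) := Nat.cast_nonneg _
                      linarith) hb
  have e : ∀ r : ℝ, r ^ (((2 * k : ℕ) : ℝ)) * Real.exp (-b * r ^ (2 : ℝ)) =
      r ^ (2 * k) * Real.exp (-(b * r ^ 2)) := by
    intro r
    rw [Real.rpow_natCast, Real.rpow_two, neg_mul]
  simp only [e] at h
  rw [h]
  have e1 : (((2 * k : ℕ) : ℝ) + 1) / 2 = (k : ℝ) + 1 / 2 := by
    push_cast
    ring
  have e2 : -(((2 * k : ℕ) : ℝ) + 1) / 2 = -((k : ℝ) + 1 / 2) := by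
    push_cast
    ring
  rw [e1, e2]
  ring

theorem intble {b : ℝ} (hb : 0 < b) (k : ℕ) :
    Integrable fun r : ℝ => r ^ (2 * k) * Real.exp (-(b * r ^ 2)) := by
  have h := integrable_rpow_mul_exp_neg_mul_sq (b := b) hb (s := ((2 * k : ℕ) : ℝ))
    (by have : (0 : ℝ) ≤ ((2 * k : ℕ) : ℝ) := Nat.cast_nonneg _
        linarith)
  refine h.congr (Filter.Eventually.of_forall fun r => ?_)
  simp only
  rw [Real.rpow_natCast, neg_mul]

theorem mm_diff {b : ℝ} (hb : 0 < b) (k : ℕ) :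
    Real.Gamma ((k : ℝ) + 1 / 2) * b ^ (-((k : ℝ) + 1 / 2)) - mm b (2 * k) =
      2 * ∫ r in Ioi (1 / 4 : ℝ), r ^ (2 * k) * Real.exp (-(b * r ^ 2)) := by
  have h := intervalIntegral.integral_interval_add_Ioi (a := (0 : ℝ)) (b := 1 / 4)
    (intble hb k).integrableOn (intble hb k).integrableOn
  rw [int_half hb k] at h
  rw [mm_even]
  linarith

theorem tail_nonneg (b : ℝ) (k : ℕ) :
    0 ≤ ∫ r in Ioi (1 / 4 : ℝ), r ^ (2 * k) * Real.exp (-(b * r ^ 2)) := by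
  apply setIntegral_nonneg measurableSet_Ioi
  intro r _
  have : 0 ≤ r ^ (2 * k) := by
    rw [pow_mul]
    positivity
  positivity

theorem tail_le {b : ℝ} (hb : 0 < b) (k N : ℕ) :
    ∫ r in Ioi (1 / 4 : ℝ), r ^ (2 * k) * Real.exp (-(b * r ^ 2)) ≤
      1 / 2 * (16 ^ N * (Real.Gamma (((k + N : ℕ) : ℝ) + 1 / 2) *
        b ^ (-(((k + N : ℕ) : ℝ) + 1 / 2)))) := by
  have h1 : ∫ r in Ioi (1 / 4 : ℝ), r ^ (2 * k) * Real.exp (-(b * r ^ 2)) ≤
      ∫ r in Ioi (1 / 4 : ℝ), 16 ^ N * (r ^ (2 * (k + N)) * Real.exp (-(b * r ^ 2))) := by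
    apply setIntegral_mono_on (intble hb k).integrableOn
      ((intble hb (k + N)).const_mul _).integrableOn measurableSet_Ioi
    intro r hr
    have hr' : (1 / 4 : ℝ) < r := hr
    have h2 : 1 ≤ 16 ^ N * r ^ (2 * N) := by
      have : (16 : ℝ) ^ N * r ^ (2 * N) = (16 * r ^ 2) ^ N := by
        rw [mul_pow, ← pow_mul]
      rw [this]
      apply one_le_pow₀
      nlinarith
    have h3 : 0 ≤ r ^ (2 * k) * Real.exp (-(b * r ^ 2)) := by
      have : 0 ≤ r := by linarith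
      positivity
    calc r ^ (2 * k) * Real.exp (-(b * r ^ 2)) =
        1 * (r ^ (2 * k) * Real.exp (-(b * r ^ 2))) := by ring
      _ ≤ 16 ^ N * r ^ (2 * N) * (r ^ (2 * k) * Real.exp (-(b * r ^ 2))) :=
        mul_le_mul_of_nonneg_right h2 h3
      _ = _ := by ring
  have h4 : ∫ r in Ioi (1 / 4 : ℝ), 16 ^ N * (r ^ (2 * (k + N)) * Real.exp (-(b * r ^ 2))) ≤
      ∫ r in Ioi (0 : ℝ), 16 ^ N * (r ^ (2 * (k + N)) * Real.exp (-(b * r ^ 2))) := by
    apply setIntegral_mono_set ((intble hb (k + N)).const_mul _).integrableOn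
    · refine Filter.Eventually.of_forall fun r => ?_
      have : 0 ≤ r ^ (2 * (k + N)) := by
        rw [pow_mul]
        positivity
      simp only [Pi.zero_apply]
      positivity
    · exact (Ioi_subset_Ioi (by norm_num)).eventuallyLE
  refine h1.trans (h4.trans (le_of_eq ?_))
  rw [integral_const_mul, int_half hb (k + N)]
  ring

theorem gamma_nonneg (k : ℕ) : 0 ≤ Real.Gamma ((k : ℝ) + 1 / 2) :=
  (Real.Gamma_pos_of_pos (by positivity)).le

theorem mm_le {b : ℝ} (hb : 0 < b) (k : ℕ) :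
    mm b (2 * k) ≤ Real.Gamma ((k : ℝ) + 1 / 2) * b ^ (-((k : ℝ) + 1 / 2)) := by
  have h1 := mm_diff hb k
  have h2 := tail_nonneg b k
  linarith

theorem mm_near {b : ℝ} (hb : 0 < b) (k N : ℕ) :
    |mm b (2 * k) - Real.Gamma ((k : ℝ) + 1 / 2) * b ^ (-((k : ℝ) + 1 / 2))| ≤
      16 ^ N * (Real.Gamma (((k + N : ℕ) : ℝ) + 1 / 2) * b ^ (-(((k + N : ℕ) : ℝ) + 1 / 2))) := by
  have h1 := mm_diff hb k
  have h2 := tail_nonneg b k
  have h3 := tail_le hb k N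
  rw [abs_le]
  constructor <;> linarith

/-! ### the pointwise estimate -/

/-- coefficient of the double expansion -/
noncomputable def cf (a : ℝ) (l i : ℕ) : ℝ := (-2 / 3) ^ l / (l.factorial : ℝ) * bc a i

/-- the integrand -/
noncomputable def HH (a R : ℝ) (u : ℂ) (r : ℝ) : ℂ :=
  (1 + (r : ℂ) * u) ^ (a : ℂ) * cexp (-(R * (r : ℂ) ^ 2) - (2 / 3) * R * (r : ℂ) ^ 3 * u)

/-- its expansion -/
noncomputable def PP (a : ℝ) (J : ℕ) (R : ℝ) (u : ℂ) (r : ℝ) : ℂ :=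
  ∑ l ∈ Finset.range (2 * J), ∑ i ∈ Finset.range (2 * J - l),
    ((cf a l i * R ^ l : ℝ) : ℂ) * u ^ (i + l) *
      ((r ^ (i + 3 * l) * Real.exp (-(R * r ^ 2)) : ℝ) : ℂ)

theorem PP_eq (a : ℝ) (J : ℕ) (R : ℝ) (u : ℂ) (r : ℝ) : PP a J R u r =
    cexp (-(R * (r : ℂ) ^ 2)) * ∑ l ∈ Finset.range (2 * J),
      ((-(2 / 3) * R * (r : ℂ) ^ 3 * u) ^ l / (l.factorial : ℂ)) *
        ∑ i ∈ Finset.range (2 * J - l), (bc a i : ℂ) * ((r : ℂ) * u) ^ i := by
  unfold PP cf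
  rw [Finset.mul_sum]
  refine Finset.sum_congr rfl fun l _ => ?_
  rw [Finset.mul_sum, Finset.mul_sum]
  refine Finset.sum_congr rfl fun i _ => ?_
  push_cast
  rw [mul_pow, mul_pow, mul_pow, mul_pow, ← pow_mul, pow_add, pow_add]
  ring

theorem pw (a : ℝ) (J : ℕ) : ∃ C : ℝ, 0 ≤ C ∧ ∀ (R : ℝ) (u : ℂ) (r : ℝ), 1 ≤ R → ‖u‖ ≤ 1 →
    |r| ≤ 1 / 4 → ‖HH a R u r - PP a J R u r‖ ≤
      C * ((∑ l ∈ Finset.range (2 * J), R ^ l * (r ^ (2 * (J + l)) * Real.exp (-(R * r ^ 2)))) +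
        R ^ (2 * J) * (r ^ (2 * (3 * J)) * Real.exp (-(5 / 6 * R * r ^ 2)))) := by
  choose K hK0 hK using fun m => taylor1 m a
  refine ⟨K 0 + ∑ l ∈ Finset.range (2 * J), K (2 * J - l),
    add_nonneg (hK0 0) (Finset.sum_nonneg fun l _ => hK0 _), ?_⟩
  intro R u r hR hu hr
  have hR0 : 0 ≤ R := by linarith
  set C := K 0 + ∑ l ∈ Finset.range (2 * J), K (2 * J - l) with hC
  have hC0 : K 0 ≤ C := by
    rw [hC]
    have := Finset.sum_nonneg (s := Finset.range (2 * J)) fun l _ => hK0 (2 * J - l)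
    linarith
  have hCl : ∀ l ∈ Finset.range (2 * J), K (2 * J - l) ≤ C := by
    intro l hl
    rw [hC]
    have h1 := Finset.single_le_sum (f := fun l => K (2 * J - l)) (fun l _ => hK0 (2 * J - l)) hl
    linarith [hK0 0]
  have hCnn : 0 ≤ C := (hK0 0).trans hC0
  set ν : ℂ := (r : ℂ) * u with hν
  set z : ℂ := -(2 / 3) * R * (r : ℂ) ^ 3 * u with hz
  have hνr : ‖ν‖ ≤ |r| := by
    rw [hν, norm_mul, Complex.norm_real, Real.norm_eq_abs]
    exact mul_le_of_le_one_right (abs_nonneg r) hu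
  have hν4 : ‖ν‖ ≤ 1 / 4 := hνr.trans hr
  have hz1 : ‖z‖ ≤ 2 / 3 * R * |r| ^ 3 := by
    rw [hz, norm_mul, norm_mul, norm_mul, norm_pow, Complex.norm_real, Complex.norm_real,
      Real.norm_eq_abs, Real.norm_eq_abs, abs_of_nonneg hR0]
    have h1 : ‖(-(2 / 3) : ℂ)‖ = 2 / 3 := by
      rw [norm_neg]
      norm_num
    rw [h1]
    exact mul_le_of_le_one_right (by positivity) hu
  have hz2 : ‖z‖ ≤ R * |r| ^ 3 := by
    refine hz1.trans ?_
    have : 0 ≤ R * |r| ^ 3 := by positivity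
    linarith
  have hz3 : ‖z‖ ≤ 1 / 6 * R * r ^ 2 := by
    refine hz1.trans ?_
    have h1 : |r| ^ 3 ≤ 1 / 4 * r ^ 2 := by
      rw [← sq_abs r]
      have : |r| ^ 3 = |r| * |r| ^ 2 := by ring
      rw [this]
      exact mul_le_mul_of_nonneg_right hr (by positivity)
    have h2 := mul_le_mul_of_nonneg_left h1 (by positivity : 0 ≤ 2 / 3 * R)
    linarith
  have hexp : ‖cexp (-(R * (r : ℂ) ^ 2))‖ = Real.exp (-(R * r ^ 2)) := by
    rw [Complex.norm_exp]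
    congr 1
    have : (-(R * (r : ℂ) ^ 2)) = ((-(R * r ^ 2) : ℝ) : ℂ) := by push_cast; ring
    rw [this, Complex.ofReal_re]
  have hH : HH a R u r = cexp (-(R * (r : ℂ) ^ 2)) * ((1 + ν) ^ (a : ℂ) * cexp z) := by
    unfold HH
    rw [sub_eq_add_neg, Complex.exp_add, hz, hν]
    have : -(2 / 3 * (R : ℂ) * (r : ℂ) ^ 3 * u) = -(2 / 3) * R * (r : ℂ) ^ 3 * u := by ring
    rw [this]
    ring
  have hdec : HH a R u r - PP a J R u r = cexp (-(R * (r : ℂ) ^ 2)) *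
      ((1 + ν) ^ (a : ℂ) * (cexp z - ∑ l ∈ Finset.range (2 * J), z ^ l / (l.factorial : ℂ)) +
        ∑ l ∈ Finset.range (2 * J), (z ^ l / (l.factorial : ℂ)) *
          ((1 + ν) ^ (a : ℂ) - ∑ i ∈ Finset.range (2 * J - l), (bc a i : ℂ) * ν ^ i)) := by
    rw [hH, PP_eq]
    simp only [mul_sub, Finset.sum_sub_distrib]
    rw [Finset.mul_sum (s := Finset.range (2 * J)) (a := (1 + ν) ^ (a : ℂ))]
    have h1 : ∑ l ∈ Finset.range (2 * J), (z ^ l / (l.factorial : ℂ)) * (1 + ν) ^ (a : ℂ) =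
        ∑ l ∈ Finset.range (2 * J), (1 + ν) ^ (a : ℂ) * (z ^ l / (l.factorial : ℂ)) :=
      Finset.sum_congr rfl fun l _ => mul_comm _ _
    rw [h1]
    ring
  have hb1 : ‖(1 + ν) ^ (a : ℂ)‖ ≤ C := by
    have := hK 0 ν hν4
    simp only [Finset.range_zero, Finset.sum_empty, sub_zero, pow_zero, mul_one] at this
    exact this.trans hC0
  have hb2 : ‖cexp z - ∑ l ∈ Finset.range (2 * J), z ^ l / (l.factorial : ℂ)‖ ≤
      R ^ (2 * J) * r ^ (2 * (3 * J)) * Real.exp (1 / 6 * R * r ^ 2) := by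
    refine (Complex.norm_exp_sub_sum_le_norm_mul_exp z (2 * J)).trans ?_
    have h1 : ‖z‖ ^ (2 * J) ≤ R ^ (2 * J) * r ^ (2 * (3 * J)) := by
      calc ‖z‖ ^ (2 * J) ≤ (R * |r| ^ 3) ^ (2 * J) := by gcongr
        _ = R ^ (2 * J) * r ^ (2 * (3 * J)) := by
          rw [mul_pow, ← pow_mul, ← Even.pow_abs (n := 2 * (3 * J)) ⟨3 * J, by ring⟩ r]
          congr 2
          ring
    have h2 : Real.exp ‖z‖ ≤ Real.exp (1 / 6 * R * r ^ 2) := Real.exp_le_exp.2 hz3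
    have h3 : 0 ≤ R ^ (2 * J) * r ^ (2 * (3 * J)) := le_trans (by positivity) h1
    exact mul_le_mul h1 h2 (Real.exp_pos _).le h3
  have hb3 : ∀ l ∈ Finset.range (2 * J), ‖(z ^ l / (l.factorial : ℂ)) *
      ((1 + ν) ^ (a : ℂ) - ∑ i ∈ Finset.range (2 * J - l), (bc a i : ℂ) * ν ^ i)‖ ≤
      C * (R ^ l * r ^ (2 * (J + l))) := by
    intro l hl
    have hl' : l < 2 * J := Finset.mem_range.1 hl
    rw [norm_mul, norm_div, norm_pow]
    have h1 : ‖z‖ ^ l / ‖(l.factorial : ℂ)‖ ≤ R ^ l * |r| ^ (3 * l) := by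
      rw [Complex.norm_natCast]
      have h2 : (1 : ℝ) ≤ (l.factorial : ℝ) := by exact_mod_cast l.factorial_pos
      calc ‖z‖ ^ l / (l.factorial : ℝ) ≤ ‖z‖ ^ l := div_le_self (by positivity) h2
        _ ≤ (R * |r| ^ 3) ^ l := by gcongr
        _ = R ^ l * |r| ^ (3 * l) := by rw [mul_pow, ← pow_mul]
    have h2 : ‖(1 + ν) ^ (a : ℂ) - ∑ i ∈ Finset.range (2 * J - l), (bc a i : ℂ) * ν ^ i‖ ≤
        C * |r| ^ (2 * J - l) := by
      refine (hK (2 * J - l) ν hν4).trans ?_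
      exact mul_le_mul (hCl l hl) (pow_le_pow_left₀ (norm_nonneg _) hνr _) (by positivity) hCnn
    calc ‖z‖ ^ l / ‖(l.factorial : ℂ)‖ *
        ‖(1 + ν) ^ (a : ℂ) - ∑ i ∈ Finset.range (2 * J - l), (bc a i : ℂ) * ν ^ i‖
        ≤ R ^ l * |r| ^ (3 * l) * (C * |r| ^ (2 * J - l)) :=
          mul_le_mul h1 h2 (norm_nonneg _) (by positivity)
      _ = C * (R ^ l * (|r| ^ (3 * l) * |r| ^ (2 * J - l))) := by ring
      _ = C * (R ^ l * r ^ (2 * (J + l))) := by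
        rw [← pow_add, ← Even.pow_abs (n := 2 * (J + l)) ⟨J + l, by ring⟩ r]
        congr 3
        omega
  rw [hdec, norm_mul, hexp]
  have hsum : ‖(1 + ν) ^ (a : ℂ) * (cexp z - ∑ l ∈ Finset.range (2 * J), z ^ l / (l.factorial : ℂ)) +
        ∑ l ∈ Finset.range (2 * J), (z ^ l / (l.factorial : ℂ)) *
          ((1 + ν) ^ (a : ℂ) - ∑ i ∈ Finset.range (2 * J - l), (bc a i : ℂ) * ν ^ i)‖ ≤
      C * (R ^ (2 * J) * r ^ (2 * (3 * J)) * Real.exp (1 / 6 * R * r ^ 2)) +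
        ∑ l ∈ Finset.range (2 * J), C * (R ^ l * r ^ (2 * (J + l))) := by
    refine (norm_add_le _ _).trans (add_le_add ?_ ?_)
    · rw [norm_mul]
      exact mul_le_mul hb1 hb2 (norm_nonneg _) hCnn
    · exact (norm_sum_le _ _).trans (Finset.sum_le_sum hb3)
  refine (mul_le_mul_of_nonneg_left hsum (Real.exp_pos _).le).trans (le_of_eq ?_)
  have he : Real.exp (-(5 / 6 * R * r ^ 2)) =
      Real.exp (-(R * r ^ 2)) * Real.exp (1 / 6 * R * r ^ 2) := by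
    rw [← Real.exp_add]
    congr 1
    ring
  rw [he, mul_add, mul_add, Finset.mul_sum, Finset.mul_sum]
  rw [add_comm]
  congr 1
  · refine Finset.sum_congr rfl fun l _ => ?_
    ring
  · ring

/-! ### integration -/

theorem HH_cont (a R : ℝ) {u : ℂ} (hu : ‖u‖ ≤ 1) :
    ContinuousOn (HH a R u) (uIcc (-(1 / 4) : ℝ) (1 / 4)) := by
  intro r hr
  rw [uIcc_of_le (by norm_num)] at hr
  have hr' : |r| ≤ 1 / 4 := abs_le.2 ⟨hr.1, hr.2⟩
  have h1 : ‖(r : ℂ) * u‖ ≤ 1 / 4 := by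
    rw [norm_mul, Complex.norm_real, Real.norm_eq_abs]
    exact (mul_le_of_le_one_right (abs_nonneg r) hu).trans hr'
  unfold HH
  apply ContinuousAt.continuousWithinAt
  apply ContinuousAt.mul
  · exact ContinuousAt.cpow (by fun_prop) continuousAt_const (slit h1)
  · fun_prop

theorem PP_cont (a : ℝ) (J : ℕ) (R : ℝ) (u : ℂ) : Continuous (PP a J R u) := by
  unfold PP
  fun_prop

theorem rp {R : ℝ} (hR : 1 ≤ R) (l J : ℕ) :
    R ^ l * R ^ (-(((J + l : ℕ) : ℝ) + 1 / 2)) = R ^ (-((J : ℝ) + 1 / 2)) := by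
  rw [← Real.rpow_natCast R l, ← Real.rpow_add (by linarith)]
  congr 1
  push_cast
  ring

theorem int_HH_PP (a : ℝ) (J : ℕ) : ∃ C : ℝ, 0 ≤ C ∧ ∀ (R : ℝ) (u : ℂ), 1 ≤ R → ‖u‖ ≤ 1 →
    ‖(∫ r in (-(1 / 4) : ℝ)..(1 / 4), HH a R u r) -
      ∫ r in (-(1 / 4) : ℝ)..(1 / 4), PP a J R u r‖ ≤ C * R ^ (-((J : ℝ) + 1 / 2)) := by
  obtain ⟨C, hC0, hC⟩ := pw a J
  refine ⟨C * ((∑ l ∈ Finset.range (2 * J), Real.Gamma (((J + l : ℕ) : ℝ) + 1 / 2)) +
    Real.Gamma (((3 * J : ℕ) : ℝ) + 1 / 2) * (5 / 6) ^ (-(((3 * J : ℕ) : ℝ) + 1 / 2))), ?_, ?_⟩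
  · apply mul_nonneg hC0
    apply add_nonneg
    · exact Finset.sum_nonneg fun l _ => gamma_nonneg _
    · exact mul_nonneg (gamma_nonneg _) (by positivity)
  intro R u hR hu
  have hR0 : 0 < R := by linarith
  have i1 : IntervalIntegrable (HH a R u) volume (-(1 / 4)) (1 / 4) :=
    (HH_cont a R hu).intervalIntegrable
  have i2 : IntervalIntegrable (PP a J R u) volume (-(1 / 4)) (1 / 4) :=
    (PP_cont a J R u).intervalIntegrable _ _
  rw [← intervalIntegral.integral_sub i1 i2]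
  set g : ℝ → ℝ := fun r => C * ((∑ l ∈ Finset.range (2 * J),
    R ^ l * (r ^ (2 * (J + l)) * Real.exp (-(R * r ^ 2)))) +
        R ^ (2 * J) * (r ^ (2 * (3 * J)) * Real.exp (-(5 / 6 * R * r ^ 2)))) with hg
  have hgc : Continuous g := by
    rw [hg]
    fun_prop
  have h1 := intervalIntegral.norm_integral_le_of_norm_le (μ := volume)
    (f := fun r => HH a R u r - PP a J R u r) (g := g)
    (by norm_num : (-(1 / 4) : ℝ) ≤ 1 / 4)
    (Filter.Eventually.of_forall fun r hr => hC R u r hR hu (abs_le.2 ⟨hr.1.le, hr.2⟩))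
    (hgc.intervalIntegrable _ _)
  refine h1.trans ?_
  have h2 : ∫ r in (-(1 / 4) : ℝ)..(1 / 4), g r =
      C * ((∑ l ∈ Finset.range (2 * J), R ^ l * mm R (2 * (J + l))) +
        R ^ (2 * J) * mm (5 / 6 * R) (2 * (3 * J))) := by
    rw [hg]
    rw [intervalIntegral.integral_const_mul, intervalIntegral.integral_add,
      intervalIntegral.integral_finsetSum, intervalIntegral.integral_const_mul]
    · congr 2
      refine Finset.sum_congr rfl fun l _ => ?_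
      rw [intervalIntegral.integral_const_mul]
      rfl
    · intro l _
      exact (Continuous.intervalIntegrable (by fun_prop) _ _)
    · exact (Continuous.intervalIntegrable (by fun_prop) _ _)
    · exact (Continuous.intervalIntegrable (by fun_prop) _ _)
  rw [h2, mul_assoc]
  apply mul_le_mul_of_nonneg_left _ hC0
  rw [add_mul]
  apply add_le_add
  · rw [Finset.sum_mul]
    refine Finset.sum_le_sum fun l _ => ?_
    have h3 := mul_le_mul_of_nonneg_left (mm_le hR0 (J + l)) (by positivity : 0 ≤ R ^ l)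
    refine h3.trans (le_of_eq ?_)
    rw [← rp hR l J]
    ring
  · have h3 := mul_le_mul_of_nonneg_left (mm_le (b := 5 / 6 * R) (by positivity) (3 * J))
      (by positivity : 0 ≤ R ^ (2 * J))
    refine h3.trans (le_of_eq ?_)
    rw [Real.mul_rpow (by norm_num) hR0.le]
    have h4 := rp hR (2 * J) J
    have h5 : J + 2 * J = 3 * J := by ring
    rw [h5] at h4
    rw [← h4]
    ring

theorem int_PP (a : ℝ) (J : ℕ) (R : ℝ) (u : ℂ) :
    ∫ r in (-(1 / 4) : ℝ)..(1 / 4), PP a J R u r =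
      ∑ l ∈ Finset.range (2 * J), ∑ i ∈ Finset.range (2 * J - l),
        ((cf a l i * R ^ l : ℝ) : ℂ) * u ^ (i + l) * ((mm R (i + 3 * l) : ℝ) : ℂ) := by
  unfold PP
  rw [intervalIntegral.integral_finsetSum]
  · refine Finset.sum_congr rfl fun l _ => ?_
    rw [intervalIntegral.integral_finsetSum]
    · refine Finset.sum_congr rfl fun i _ => ?_
      rw [intervalIntegral.integral_const_mul, intervalIntegral.integral_ofReal]
      rfl
    · intro i _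
      exact (Continuous.intervalIntegrable (by fun_prop) _ _)
  · intro l _
    exact (Continuous.intervalIntegrable (by fun_prop) _ _)

theorem sum_pairs {M : Type*} [AddCommMonoid M] (g : ℕ → M) (J : ℕ) :
    ∑ n ∈ Finset.range (2 * J), g n =
      ∑ j ∈ Finset.range J, (g (2 * j) + g (2 * j + 1)) := by
  induction J with
  | zero => simp
  | succ J ih =>
    rw [Finset.sum_range_succ, ← ih]
    have : 2 * (J + 1) = 2 * J + 1 + 1 := by ring
    rw [this, Finset.sum_range_succ, Finset.sum_range_succ]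
    exact add_assoc _ _ _

theorem int_PP' (a : ℝ) (J : ℕ) (R : ℝ) (u : ℂ) :
    ∫ r in (-(1 / 4) : ℝ)..(1 / 4), PP a J R u r =
      ∑ j ∈ Finset.range J, u ^ (2 * j) * ∑ l ∈ Finset.range (2 * j + 1),
        ((cf a l (2 * j - l) * (R ^ l * mm R (2 * (j + l))) : ℝ) : ℂ) := by
  rw [int_PP, ← Finset.sum_range_diag_flip (2 * J) (fun l i =>
    ((cf a l i * R ^ l : ℝ) : ℂ) * u ^ (i + l) * ((mm R (i + 3 * l) : ℝ) : ℂ)), sum_pairs]
  refine Finset.sum_congr rfl fun j _ => ?_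
  have hodd : ∑ l ∈ Finset.range (2 * j + 1 + 1), ((cf a l (2 * j + 1 - l) * R ^ l : ℝ) : ℂ) *
      u ^ (2 * j + 1 - l + l) * ((mm R (2 * j + 1 - l + 3 * l) : ℝ) : ℂ) = 0 := by
    refine Finset.sum_eq_zero fun l hl => ?_
    have hl' : l < 2 * j + 1 + 1 := Finset.mem_range.1 hl
    have e : 2 * j + 1 - l + 3 * l = 2 * (j + l) + 1 := by omega
    rw [e, mm_odd]
    simp
  rw [hodd, add_zero, Finset.mul_sum]
  refine Finset.sum_congr rfl fun l hl => ?_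
  have hl' : l < 2 * j + 1 := Finset.mem_range.1 hl
  have e1 : 2 * j - l + l = 2 * j := by omega
  have e2 : 2 * j - l + 3 * l = 2 * (j + l) := by omega
  rw [e1, e2]
  push_cast
  ring

theorem rR_eq (a : ℝ) (j : ℕ) : rR a j = ∑ l ∈ Finset.range (2 * j + 1),
    cf a l (2 * j - l) * Real.Gamma (((j + l : ℕ) : ℝ) + 1 / 2) := by
  unfold rR cf bc
  refine Finset.sum_congr rfl fun l _ => ?_
  push_cast
  ring

theorem coef_near (a : ℝ) (J j : ℕ) : ∃ C : ℝ, 0 ≤ C ∧ ∀ R : ℝ, 1 ≤ R →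
    |(∑ l ∈ Finset.range (2 * j + 1), cf a l (2 * j - l) * (R ^ l * mm R (2 * (j + l)))) -
      rR a j * R ^ (-((j : ℝ) + 1 / 2))| ≤ C * R ^ (-((J : ℝ) + 1 / 2)) := by
  refine ⟨∑ l ∈ Finset.range (2 * j + 1), |cf a l (2 * j - l)| *
    (16 ^ J * Real.Gamma (((j + l + J : ℕ) : ℝ) + 1 / 2)), ?_, ?_⟩
  · exact Finset.sum_nonneg fun l _ => mul_nonneg (abs_nonneg _)
      (mul_nonneg (by positivity) (gamma_nonneg _))
  intro R hR
  have hR0 : 0 < R := by linarith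
  rw [rR_eq, Finset.sum_mul, ← Finset.sum_sub_distrib, Finset.sum_mul]
  refine (Finset.abs_sum_le_sum_abs _ _).trans (Finset.sum_le_sum fun l _ => ?_)
  have h1 := mm_near hR0 (j + l) J
  rw [← rp hR l j]
  have e : cf a l (2 * j - l) * (R ^ l * mm R (2 * (j + l))) -
      cf a l (2 * j - l) * Real.Gamma (((j + l : ℕ) : ℝ) + 1 / 2) *
        (R ^ l * R ^ (-(((j + l : ℕ) : ℝ) + 1 / 2))) =
      cf a l (2 * j - l) * (R ^ l * (mm R (2 * (j + l)) -
        Real.Gamma (((j + l : ℕ) : ℝ) + 1 / 2) * R ^ (-(((j + l : ℕ) : ℝ) + 1 / 2)))) := by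
    ring
  rw [e, abs_mul, abs_mul, abs_of_nonneg (by positivity : 0 ≤ R ^ l), mul_assoc]
  apply mul_le_mul_of_nonneg_left _ (abs_nonneg _)
  refine (mul_le_mul_of_nonneg_left h1 (by positivity : 0 ≤ R ^ l)).trans ?_
  have h2 : R ^ l * R ^ (-(((j + l + J : ℕ) : ℝ) + 1 / 2)) ≤ R ^ (-((J : ℝ) + 1 / 2)) := by
    rw [← Real.rpow_natCast R l, ← Real.rpow_add hR0]
    apply Real.rpow_le_rpow_of_exponent_le hR
    push_cast
    have : (0 : ℝ) ≤ j := Nat.cast_nonneg j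
    linarith
  have h3 : 0 ≤ (16 : ℝ) ^ J * Real.Gamma (((j + l + J : ℕ) : ℝ) + 1 / 2) :=
    mul_nonneg (by positivity) (gamma_nonneg _)
  calc R ^ l * (16 ^ J * (Real.Gamma (((j + l + J : ℕ) : ℝ) + 1 / 2) *
        R ^ (-(((j + l + J : ℕ) : ℝ) + 1 / 2))))
      = 16 ^ J * Real.Gamma (((j + l + J : ℕ) : ℝ) + 1 / 2) *
        (R ^ l * R ^ (-(((j + l + J : ℕ) : ℝ) + 1 / 2))) := by ring
    _ ≤ 16 ^ J * Real.Gamma (((j + l + J : ℕ) : ℝ) + 1 / 2) * R ^ (-((J : ℝ) + 1 / 2)) :=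
      mul_le_mul_of_nonneg_left h2 h3

/-- the Laplace lemma for every direction `u` of norm at most one -/
theorem laplace_u (a : ℝ) (J : ℕ) : ∃ C : ℝ, 0 ≤ C ∧ ∀ (R : ℝ) (u : ℂ), 1 ≤ R → ‖u‖ ≤ 1 →
    ‖(∫ r in (-(1 / 4) : ℝ)..(1 / 4), HH a R u r) * u -
      ∑ j ∈ Finset.range J, (rR a j : ℂ) * (((R ^ (-((j : ℝ) + 1 / 2)) : ℝ) : ℂ) *
        u ^ (2 * j + 1))‖ ≤ C * R ^ (-((J : ℝ) + 1 / 2)) := by
  obtain ⟨C1, hC10, hC1⟩ := int_HH_PP a J
  choose C2 hC20 hC2 using fun j => coef_near a J j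
  refine ⟨C1 + ∑ j ∈ Finset.range J, C2 j, add_nonneg hC10 (Finset.sum_nonneg fun j _ => hC20 j),
    ?_⟩
  intro R u hR hu
  have h1 := hC1 R u hR hu
  have h2 : ‖((∫ r in (-(1 / 4) : ℝ)..(1 / 4), HH a R u r) -
      ∫ r in (-(1 / 4) : ℝ)..(1 / 4), PP a J R u r) * u‖ ≤ C1 * R ^ (-((J : ℝ) + 1 / 2)) := by
    rw [norm_mul]
    exact (mul_le_of_le_one_right (norm_nonneg _) hu).trans h1
  have h3 : ‖(∫ r in (-(1 / 4) : ℝ)..(1 / 4), PP a J R u r) * u -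
      ∑ j ∈ Finset.range J, (rR a j : ℂ) * (((R ^ (-((j : ℝ) + 1 / 2)) : ℝ) : ℂ) *
        u ^ (2 * j + 1))‖ ≤ (∑ j ∈ Finset.range J, C2 j) * R ^ (-((J : ℝ) + 1 / 2)) := by
    rw [int_PP', Finset.sum_mul, ← Finset.sum_sub_distrib, Finset.sum_mul]
    refine (norm_sum_le _ _).trans (Finset.sum_le_sum fun j _ => ?_)
    have e : u ^ (2 * j) * (∑ l ∈ Finset.range (2 * j + 1),
        ((cf a l (2 * j - l) * (R ^ l * mm R (2 * (j + l))) : ℝ) : ℂ)) * u -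
        (rR a j : ℂ) * (((R ^ (-((j : ℝ) + 1 / 2)) : ℝ) : ℂ) * u ^ (2 * j + 1)) =
        u ^ (2 * j + 1) * (((∑ l ∈ Finset.range (2 * j + 1),
          cf a l (2 * j - l) * (R ^ l * mm R (2 * (j + l)))) -
          rR a j * R ^ (-((j : ℝ) + 1 / 2)) : ℝ) : ℂ) := by
      push_cast
      ring
    rw [e, norm_mul, norm_pow, Complex.norm_real, Real.norm_eq_abs]
    exact (mul_le_of_le_one_left (abs_nonneg _) (pow_le_one₀ (norm_nonneg _) hu)).trans
      (hC2 j R hR)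
  have e : (∫ r in (-(1 / 4) : ℝ)..(1 / 4), HH a R u r) * u -
      ∑ j ∈ Finset.range J, (rR a j : ℂ) * (((R ^ (-((j : ℝ) + 1 / 2)) : ℝ) : ℂ) *
        u ^ (2 * j + 1)) =
      ((∫ r in (-(1 / 4) : ℝ)..(1 / 4), HH a R u r) -
        ∫ r in (-(1 / 4) : ℝ)..(1 / 4), PP a J R u r) * u +
      ((∫ r in (-(1 / 4) : ℝ)..(1 / 4), PP a J R u r) * u -
      ∑ j ∈ Finset.range J, (rR a j : ℂ) * (((R ^ (-((j : ℝ) + 1 / 2)) : ℝ) : ℂ) *
        u ^ (2 * j + 1))) := by ring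
  rw [e, add_mul]
  exact (norm_add_le _ _).trans (add_le_add h2 h3)

end E3

theorem laplace (a : ℝ) (J : ℕ) : ∃ C : ℝ, ∀ R φ : ℝ, 1 ≤ R → 0 ≤ φ → φ ≤ Real.pi / 3 →
    ‖(∫ r in (-(1 / 4) : ℝ)..(1 / 4), (1 + (r : ℂ) * cexp (-(3 * φ / 2) * I)) ^ (a : ℂ)
        * cexp (-(R * (r : ℂ) ^ 2) - (2 / 3) * R * (r : ℂ) ^ 3 * cexp (-(3 * φ / 2) * I)))
        * cexp (-(3 * φ / 2) * I)
      - ∑ j ∈ Finset.range J, (rR a j : ℂ)
          * cexp (-((j : ℂ) + 1 / 2) * (Real.log R + 3 * φ * I))‖ ≤ C * R ^ (-((J : ℝ) + 1 / 2)) := by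
  obtain ⟨C, _, hC⟩ := E3.laplace_u a J
  refine ⟨C, fun R φ hR _ _ => ?_⟩
  have hR0 : 0 < R := by linarith
  have hu : ‖cexp (-(3 * φ / 2) * I)‖ ≤ 1 := by
    have : (-(3 * (φ : ℂ) / 2) * I) = ((-(3 * φ / 2) : ℝ) : ℂ) * I := by push_cast; ring
    rw [this, Complex.norm_exp_ofReal_mul_I]
  have h := hC R (cexp (-(3 * φ / 2) * I)) hR hu
  unfold E3.HH at h
  have e : ∀ j : ℕ, cexp (-((j : ℂ) + 1 / 2) * (Real.log R + 3 * φ * I)) =
      ((R ^ (-((j : ℝ) + 1 / 2)) : ℝ) : ℂ) * cexp (-(3 * φ / 2) * I) ^ (2 * j + 1) := by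
    intro j
    rw [Real.rpow_def_of_pos hR0, Complex.ofReal_exp, ← Complex.exp_nat_mul, ← Complex.exp_add]
    congr 1
    push_cast
    ring
  simp only [e]
  exact h

end Pool.Agent.H401R2.Fl
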