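import Mathlib
import Pool.Agent.H401R2.Fl.Defs
import Pool.Agent.H401R2.Fl.Stubs

/-!
Task L (helper363): primitives of the integrand, analyticity of the Laplace transform in `τ`.
-/

set_option autoImplicit false

open Complex MeasureTheory Set Filter Topology

namespace Pool.Agent.H401R2.Fl

open Stubs (norm_BB_le ell_differentiableOn exp_ell)

/-! ### primitives on the right half plane -/

/-- the integral along the segment from `1` is a primitive -/
theorem segPrim {f : ℂ → ℂ} (hf : DifferentiableOn ℂ f {w | 0 < w.re}) {w : ℂ} (hw : 0 < w.re) :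
    HasDerivAt (fun z : ℂ => (z - 1) * ∫ t in (0 : ℝ)..1, f (1 + (t : ℂ) * (z - 1))) (f w) w := by
  set R : ℝ := ‖w‖ ^ 2 / (2 * w.re) + 1 with hR
  have hR0 : 1 ≤ R := by
    rw [hR]
    have : 0 ≤ ‖w‖ ^ 2 / (2 * w.re) := by positivity
    linarith
  have hsub : Metric.ball (R : ℂ) R ⊆ {w : ℂ | 0 < w.re} := by
    intro z hz
    rw [Metric.mem_ball, dist_eq_norm] at hz
    have h1 : |(z - R).re| ≤ ‖z - R‖ := Complex.abs_re_le_norm _
    rw [Complex.sub_re, Complex.ofReal_re] at h1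
    have h2 := (abs_lt.mp (lt_of_le_of_lt h1 hz)).1
    show 0 < z.re
    linarith
  have hw1 : w ∈ Metric.ball (R : ℂ) R := by
    rw [Metric.mem_ball, dist_eq_norm]
    have h1 : ‖w - R‖ ^ 2 < R ^ 2 := by
      rw [← Complex.normSq_eq_norm_sq, Complex.normSq_apply]
      rw [Complex.sub_re, Complex.sub_im, Complex.ofReal_re, Complex.ofReal_im]
      have h2 : ‖w‖ ^ 2 = w.re * w.re + w.im * w.im := by
        rw [← Complex.normSq_eq_norm_sq, Complex.normSq_apply]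
      have h3 : 2 * w.re * R = ‖w‖ ^ 2 + 2 * w.re := by
        rw [hR]
        field_simp
      nlinarith
    exact lt_of_pow_lt_pow_left₀ 2 (by linarith) h1
  have h11 : (1 : ℂ) ∈ Metric.ball (R : ℂ) R := by
    rw [Metric.mem_ball, dist_eq_norm]
    have : (1 : ℂ) - R = ((1 - R : ℝ) : ℂ) := by push_cast; ring
    rw [this, Complex.norm_real, Real.norm_eq_abs, abs_lt]
    constructor <;> linarith
  obtain ⟨g, hg⟩ := (hf.mono hsub).isExactOn_ball
  have hseg : ∀ z ∈ Metric.ball (R : ℂ) R, ∀ t ∈ Set.uIcc (0 : ℝ) 1,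
      (1 : ℂ) + (t : ℂ) * (z - 1) ∈ Metric.ball (R : ℂ) R := by
    intro z hz t ht
    rw [Set.uIcc_of_le zero_le_one] at ht
    have hc := (convex_ball (R : ℂ) R) h11 hz (a := 1 - t) (b := t) (by linarith [ht.2]) ht.1
      (by ring)
    have e : (1 - t) • (1 : ℂ) + t • z = 1 + (t : ℂ) * (z - 1) := by
      simp only [Complex.real_smul]
      push_cast
      ring
    rwa [e] at hc
  have key : ∀ z ∈ Metric.ball (R : ℂ) R,
      (z - 1) * ∫ t in (0 : ℝ)..1, f (1 + (t : ℂ) * (z - 1)) = g z - g 1 := by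
    intro z hz
    have hd : ∀ t ∈ Set.uIcc (0 : ℝ) 1,
        HasDerivAt (fun t : ℝ => g (1 + (t : ℂ) * (z - 1)))
          ((z - 1) * f (1 + (t : ℂ) * (z - 1))) t := by
      intro t ht
      have h1 := hg _ (hseg z hz t ht)
      have h2 : HasDerivAt (fun t : ℝ => 1 + (t : ℂ) * (z - 1)) (z - 1) t := by
        have h3 : HasDerivAt (fun t : ℝ => (t : ℂ)) 1 t := Complex.ofRealCLM.hasDerivAt
        simpa using (h3.mul_const (z - 1)).const_add 1
      have h4 := h1.comp t h2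
      rw [mul_comm]
      exact h4
    have hcont : ContinuousOn (fun t : ℝ => (z - 1) * f (1 + (t : ℂ) * (z - 1)))
        (Set.uIcc (0 : ℝ) 1) := by
      refine continuousOn_const.mul (hf.continuousOn.comp ?_ ?_)
      · exact (continuous_const.add (Complex.continuous_ofReal.mul continuous_const)).continuousOn
      · intro t ht
        exact hsub (hseg z hz t ht)
    have h5 := intervalIntegral.integral_eq_sub_of_hasDerivAt hd hcont.intervalIntegrable
    rw [intervalIntegral.integral_const_mul] at h5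
    rw [h5]
    simp
  have h6 : HasDerivAt (fun z => g z - g 1) (f w) w := (hg w hw1).sub_const _
  refine h6.congr_of_eventuallyEq ?_
  filter_upwards [Metric.isOpen_ball.mem_nhds hw1] with z hz using key z hz

theorem GG_differentiableOn (q : ℝ) (τ : ℂ) : DifferentiableOn ℂ (GG q τ) {w | 0 < w.re} := by
  unfold GG
  have h1 : DifferentiableOn ℂ (fun w : ℂ => (q : ℂ) * ell w) {w | 0 < w.re} :=
    ell_differentiableOn.const_mul _
  have h2 : Differentiable ℂ (fun w : ℂ => (2 * (q : ℂ) / 3) * w ^ 3) := by fun_prop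
  have h3 : Differentiable ℂ (fun w : ℂ => τ * w ^ 2) := by fun_prop
  have h4 : Differentiable ℂ (fun w : ℂ => 2 * w) := by fun_prop
  exact h4.differentiableOn.mul ((h1.sub h2.differentiableOn).add h3.differentiableOn).cexp

theorem GG_primitive (q : ℝ) (τ : ℂ) : ∃ P : ℂ → ℂ, ∀ w : ℂ, 0 < w.re →
    HasDerivAt P (GG q τ w) w :=
  ⟨_, fun _ hw => segPrim (GG_differentiableOn q τ) hw⟩

/-! ### bounds -/

theorem norm_exp_ell_le {q : ℝ} (hq : 0 ≤ q) {w : ℂ} (hw : 1 ≤ w.re) :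
    ‖cexp (q * ell w)‖ ≤ Real.pi ^ (q / 2) := by
  have h1 : ‖cexp (ell w)‖ ≤ Real.sqrt Real.pi := by
    rw [exp_ell (by linarith)]
    refine (norm_BB_le (by linarith)).trans (Real.sqrt_le_sqrt ?_)
    rw [div_le_iff₀ (by linarith)]
    nlinarith [Real.pi_pos]
  rw [Complex.norm_exp] at h1 ⊢
  have h2 : ((q : ℂ) * ell w).re = (ell w).re * q := by
    rw [Complex.re_ofReal_mul, mul_comm]
  rw [h2, Real.exp_mul]
  refine (Real.rpow_le_rpow (Real.exp_pos _).le h1 hq).trans (le_of_eq ?_)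
  rw [Real.sqrt_eq_rpow, ← Real.rpow_mul Real.pi_pos.le]
  congr 1
  ring

theorem norm_GG_le {q : ℝ} (hq : 0 ≤ q) (τ : ℂ) {w : ℂ} (hw : 1 ≤ w.re) :
    ‖GG q τ w‖ ≤ 2 * ‖w‖ * Real.pi ^ (q / 2)
      * Real.exp ((-(2 * q / 3) * w ^ 3 + τ * w ^ 2 : ℂ).re) := by
  unfold GG
  have e : (q : ℂ) * ell w - (2 * q / 3) * w ^ 3 + τ * w ^ 2
      = q * ell w + (-(2 * q / 3) * w ^ 3 + τ * w ^ 2) := by ring
  rw [e, Complex.exp_add, norm_mul, norm_mul, norm_mul, Complex.norm_exp (-(2 * q / 3) * w ^ 3 + _)]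
  rw [mul_assoc (2 * ‖w‖)]
  have h2 : ‖(2 : ℂ)‖ = 2 := by simp
  rw [h2]
  gcongr
  exact norm_exp_ell_le hq hw

theorem integrable_quad {a : ℝ} (ha : 0 < a) (b : ℝ) :
    Integrable (fun s : ℝ => Real.exp (-(a * s ^ 2) + b * s)) := by
  have h := (integrable_cexp_quadratic (b := (a : ℂ)) (by simpa using ha) (b : ℂ) 0).norm
  refine h.congr (Filter.Eventually.of_forall fun s => ?_)
  show ‖_‖ = _
  rw [Complex.norm_exp]
  congr 1
  have e : -(a : ℂ) * (s : ℂ) ^ 2 + (b : ℂ) * (s : ℂ) + 0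
      = ((-(a * s ^ 2) + b * s : ℝ) : ℂ) := by
    push_cast
    ring
  rw [e, Complex.ofReal_re]

/-- bound on the vertical line -/
theorem norm_vert_le {q : ℝ} (hq : 0 ≤ q) {τ : ℂ} {δ M : ℝ} (h1 : 2 * q + δ ≤ τ.re)
    (h2 : ‖τ‖ ≤ M) {s : ℝ} (hs : 0 ≤ s) :
    (1 + s) ^ 2 * ‖GG q τ (1 + I * (s : ℂ))‖
      ≤ 2 * Real.pi ^ (q / 2) * Real.exp M * Real.exp (-(δ * s ^ 2) + (2 * M + 3) * s) := by
  have hre : (1 + I * (s : ℂ)).re = 1 := by simp
  have hn : ‖1 + I * (s : ℂ)‖ ≤ 1 + s := by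
    refine (norm_add_le _ _).trans ?_
    rw [norm_mul, Complex.norm_I, Complex.norm_real, Real.norm_eq_abs, abs_of_nonneg hs]
    simp
  have hG := norm_GG_le hq τ (w := 1 + I * (s : ℂ)) (by rw [hre])
  have he : (-(2 * q / 3) * (1 + I * (s : ℂ)) ^ 3 + τ * (1 + I * (s : ℂ)) ^ 2 : ℂ).re
      = -(2 * q / 3) * (1 - 3 * s ^ 2) + τ.re * (1 - s ^ 2) - 2 * s * τ.im := by
    have e3 : (1 + I * (s : ℂ)) ^ 3 = ((1 - 3 * s ^ 2 : ℝ) : ℂ) + ((3 * s - s ^ 3 : ℝ) : ℂ) * I := by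
      push_cast
      have hI : I ^ 2 = -1 := Complex.I_sq
      have hI3 : I ^ 3 = -I := by rw [pow_succ, hI]; ring
      linear_combination (3 * (s : ℂ) ^ 2) * hI + (s : ℂ) ^ 3 * hI3
    have e2 : (1 + I * (s : ℂ)) ^ 2 = ((1 - s ^ 2 : ℝ) : ℂ) + ((2 * s : ℝ) : ℂ) * I := by
      push_cast
      have hI : I ^ 2 = -1 := Complex.I_sq
      linear_combination ((s : ℂ) ^ 2) * hI
    have eq1 : (-(2 * (q : ℂ) / 3)) = ((-(2 * q / 3) : ℝ) : ℂ) := by push_cast; ring
    rw [e3, e2, eq1, Complex.add_re, Complex.re_ofReal_mul, Complex.mul_re]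
    simp only [Complex.add_re, Complex.add_im, Complex.ofReal_re, Complex.ofReal_im,
      Complex.mul_re, Complex.mul_im, Complex.I_re, Complex.I_im]
    ring
  rw [he] at hG
  have hM1 := (abs_le.mp ((Complex.abs_re_le_norm τ).trans h2))
  have hM2 := (abs_le.mp ((Complex.abs_im_le_norm τ).trans h2))
  have hexp : -(2 * q / 3) * (1 - 3 * s ^ 2) + τ.re * (1 - s ^ 2) - 2 * s * τ.im
      ≤ M + (-(δ * s ^ 2) + 2 * M * s) := by
    nlinarith [mul_nonneg hs hs, mul_nonneg (mul_nonneg hs hs) (sub_nonneg.mpr h1),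
      mul_nonneg hs (by linarith [hM2.1] : 0 ≤ M + τ.im)]
  have h3 : (1 + s) ^ 3 ≤ Real.exp (3 * s) := by
    have := Real.add_one_le_exp s
    have h4 : Real.exp (3 * s) = Real.exp s ^ 3 := by
      rw [← Real.exp_nat_mul]; norm_num
    rw [h4]
    exact pow_le_pow_left₀ (by linarith) (by linarith) 3
  have hpi : 0 < Real.pi ^ (q / 2) := Real.rpow_pos_of_pos Real.pi_pos _
  calc (1 + s) ^ 2 * ‖GG q τ (1 + I * (s : ℂ))‖
      ≤ (1 + s) ^ 2 * (2 * (1 + s) * Real.pi ^ (q / 2)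
          * Real.exp (M + (-(δ * s ^ 2) + 2 * M * s))) := by
        refine mul_le_mul_of_nonneg_left (hG.trans ?_) (by positivity)
        gcongr
    _ = (1 + s) ^ 3 * (2 * Real.pi ^ (q / 2) * Real.exp (M + (-(δ * s ^ 2) + 2 * M * s))) := by
        ring
    _ ≤ Real.exp (3 * s) * (2 * Real.pi ^ (q / 2) * Real.exp (M + (-(δ * s ^ 2) + 2 * M * s))) := by
        gcongr
    _ = 2 * Real.pi ^ (q / 2) * (Real.exp (3 * s) * Real.exp (M + (-(δ * s ^ 2) + 2 * M * s))) := by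
        ring
    _ = 2 * Real.pi ^ (q / 2) * Real.exp M * Real.exp (-(δ * s ^ 2) + (2 * M + 3) * s) := by
        rw [← Real.exp_add, mul_assoc (2 * Real.pi ^ (q / 2)), ← Real.exp_add]
        congr 2
        ring

/-- bound on the positive axis -/
theorem norm_hor_le {q : ℝ} (hq : 0 < q) {M : ℝ} (hM : 0 ≤ M) : ∃ K : ℝ, ∀ τ : ℂ, ‖τ‖ ≤ M →
    ∀ x : ℝ, 1 ≤ x → x ^ 2 * ‖GG q τ (x : ℂ)‖ ≤ K * Real.exp (-x) := by
  set x₁ : ℝ := (M + 4) * 3 / (2 * q) with hx₁
  refine ⟨2 * Real.pi ^ (q / 2) * Real.exp ((M + 4) * x₁ ^ 2), fun τ hτ x hx => ?_⟩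
  have hG := norm_GG_le hq.le τ (w := (x : ℂ)) (by simpa using hx)
  have he : (-(2 * q / 3) * (x : ℂ) ^ 3 + τ * (x : ℂ) ^ 2 : ℂ).re
      = -(2 * q / 3) * x ^ 3 + τ.re * x ^ 2 := by
    have eq1 : -(2 * (q : ℂ) / 3) * (x : ℂ) ^ 3 = ((-(2 * q / 3) * x ^ 3 : ℝ) : ℂ) := by
      push_cast; ring
    have eq2 : (x : ℂ) ^ 2 = ((x ^ 2 : ℝ) : ℂ) := by push_cast; ring
    rw [eq1, eq2, Complex.add_re, Complex.ofReal_re, Complex.re_mul_ofReal]
  rw [he] at hG
  have hn : ‖(x : ℂ)‖ = x := by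
    rw [Complex.norm_real, Real.norm_eq_abs, abs_of_nonneg (by linarith)]
  rw [hn] at hG
  have hM1 := (abs_le.mp ((Complex.abs_re_le_norm τ).trans hτ)).2
  have hx₁0 : 0 < x₁ := by rw [hx₁]; positivity
  have hcub : (M + 4) * x ^ 2 - (M + 4) * x₁ ^ 2 ≤ 2 * q / 3 * x ^ 3 := by
    rcases le_total x₁ x with h | h
    · have h1 : (M + 4) = 2 * q / 3 * x₁ := by rw [hx₁]; field_simp
      have h2 : (M + 4) * x ^ 2 ≤ 2 * q / 3 * x ^ 3 := by
        rw [h1]
        have : 2 * q / 3 * x₁ * x ^ 2 ≤ 2 * q / 3 * x * x ^ 2 := by gcongr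
        nlinarith
      have h3 : 0 ≤ (M + 4) * x₁ ^ 2 := by positivity
      linarith
    · have h2 : (M + 4) * x ^ 2 ≤ (M + 4) * x₁ ^ 2 := by gcongr
      have h3 : 0 ≤ 2 * q / 3 * x ^ 3 := by positivity
      linarith
  have hexp : -(2 * q / 3) * x ^ 3 + τ.re * x ^ 2 + 3 * x ≤ (M + 4) * x₁ ^ 2 + -x := by
    nlinarith [mul_nonneg (sub_nonneg.mpr hM1) (sq_nonneg x)]
  have h3 : x ^ 3 ≤ Real.exp (3 * x) := by
    have := Real.add_one_le_exp x
    have h4 : Real.exp (3 * x) = Real.exp x ^ 3 := by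
      rw [← Real.exp_nat_mul]; norm_num
    rw [h4]
    exact pow_le_pow_left₀ (by linarith) (by linarith) 3
  have hpi : 0 < Real.pi ^ (q / 2) := Real.rpow_pos_of_pos Real.pi_pos _
  calc x ^ 2 * ‖GG q τ (x : ℂ)‖
      ≤ x ^ 2 * (2 * x * Real.pi ^ (q / 2) * Real.exp (-(2 * q / 3) * x ^ 3 + τ.re * x ^ 2)) :=
        mul_le_mul_of_nonneg_left hG (by positivity)
    _ = x ^ 3 * (2 * Real.pi ^ (q / 2) * Real.exp (-(2 * q / 3) * x ^ 3 + τ.re * x ^ 2)) := by ring
    _ ≤ Real.exp (3 * x)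
        * (2 * Real.pi ^ (q / 2) * Real.exp (-(2 * q / 3) * x ^ 3 + τ.re * x ^ 2)) := by gcongr
    _ = 2 * Real.pi ^ (q / 2)
        * Real.exp (-(2 * q / 3) * x ^ 3 + τ.re * x ^ 2 + 3 * x) := by
        rw [Real.exp_add (-(2 * q / 3) * x ^ 3 + τ.re * x ^ 2)]
        ring
    _ ≤ 2 * Real.pi ^ (q / 2) * Real.exp ((M + 4) * x₁ ^ 2 + -x) := by gcongr
    _ = _ := by rw [Real.exp_add]; ring

/-! ### continuity along the contour -/

theorem cont_vert (q : ℝ) (τ : ℂ) : Continuous (fun s : ℝ => GG q τ (1 + I * (s : ℂ))) := by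
  have h := (GG_differentiableOn q τ).continuousOn
  refine h.comp_continuous (by fun_prop) fun s => ?_
  show 0 < (1 + I * (s : ℂ)).re
  simp

theorem cont_hor (q : ℝ) (τ : ℂ) : ContinuousOn (fun x : ℝ => GG q τ (x : ℂ)) (Ioi 0) := by
  have h := (GG_differentiableOn q τ).continuousOn
  refine h.comp (by fun_prop) fun x hx => ?_
  show 0 < (x : ℂ).re
  simpa using hx

theorem int_vert {q : ℝ} (hq : 0 < q) {τ : ℂ} (hτ : 2 * q < τ.re) :
    IntegrableOn (fun s : ℝ => GG q τ (1 + I * (s : ℂ))) (Ioi 0) := by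
  have hi := (integrable_quad (a := τ.re - 2 * q) (by linarith) (2 * ‖τ‖ + 3)).integrableOn
    (s := Ioi (0 : ℝ))
  refine Integrable.mono' (hi.const_mul (2 * Real.pi ^ (q / 2) * Real.exp ‖τ‖))
    (cont_vert q τ).aestronglyMeasurable.restrict ?_
  refine (ae_restrict_iff' measurableSet_Ioi).mpr (Filter.Eventually.of_forall fun s hs => ?_)
  have hs0 : (0 : ℝ) < s := hs
  have h := norm_vert_le hq.le (τ := τ) (δ := τ.re - 2 * q) (by linarith) le_rfl hs0.le
  refine le_trans ?_ h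
  nlinarith [norm_nonneg (GG q τ (1 + I * (s : ℂ))), mul_nonneg hs0.le
    (norm_nonneg (GG q τ (1 + I * (s : ℂ)))), mul_nonneg (mul_nonneg hs0.le hs0.le)
    (norm_nonneg (GG q τ (1 + I * (s : ℂ))))]

theorem int_hor {q : ℝ} (hq : 0 < q) (τ : ℂ) :
    IntegrableOn (fun x : ℝ => GG q τ (x : ℂ)) (Ioi 1) := by
  obtain ⟨K, hK⟩ := norm_hor_le hq (norm_nonneg τ)
  have hi : IntegrableOn (fun x : ℝ => K * Real.exp (-x)) (Ioi 1) :=
    (integrableOn_exp_neg_Ioi 1).const_mul K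
  refine Integrable.mono' hi
    (((cont_hor q τ).mono (Ioi_subset_Ioi zero_le_one)).aestronglyMeasurable measurableSet_Ioi) ?_
  refine (ae_restrict_iff' measurableSet_Ioi).mpr (Filter.Eventually.of_forall fun x hx => ?_)
  have hx1 : (1 : ℝ) < x := hx
  refine le_trans ?_ (hK τ le_rfl x hx1.le)
  have : (1 : ℝ) ≤ x ^ 2 := by nlinarith
  nlinarith [norm_nonneg (GG q τ (x : ℂ))]

theorem LL_eq {q : ℝ} (hq : 0 < q) {τ : ℂ} (hτ : 2 * q < τ.re) (P : ℂ → ℂ)
    (hP : ∀ w : ℂ, 0 < w.re → HasDerivAt P (GG q τ w) w) :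
    ∃ A B : ℂ, Tendsto (fun x : ℝ => P (x : ℂ)) atTop (𝓝 A) ∧
      Tendsto (fun s : ℝ => P (1 + I * (s : ℂ))) atTop (𝓝 B) ∧ LL q τ = A - B := by
  refine ⟨P 1 + ∫ x in Ioi (1 : ℝ), GG q τ (x : ℂ),
    P 1 + ∫ s in Ioi (0 : ℝ), I * GG q τ (1 + I * (s : ℂ)), ?_, ?_, ?_⟩
  · have h1 := intervalIntegral_tendsto_integral_Ioi 1 (int_hor hq τ) tendsto_id
    have h2 := h1.const_add (P 1)
    refine h2.congr' ?_
    filter_upwards [eventually_ge_atTop (1 : ℝ)] with x hx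
    have hd : ∀ y ∈ Set.uIcc (1 : ℝ) x, HasDerivAt (fun y : ℝ => P (y : ℂ)) (GG q τ (y : ℂ)) y := by
      intro y hy
      rw [Set.uIcc_of_le hx] at hy
      have h3 := hP (y : ℂ) (by simpa using lt_of_lt_of_le one_pos hy.1)
      exact h3.comp_ofReal
    have hc : ContinuousOn (fun y : ℝ => GG q τ (y : ℂ)) (Set.uIcc (1 : ℝ) x) := by
      refine (cont_hor q τ).mono fun y hy => ?_
      rw [Set.uIcc_of_le hx] at hy
      exact lt_of_lt_of_le one_pos hy.1
    have h4 := intervalIntegral.integral_eq_sub_of_hasDerivAt hd hc.intervalIntegrable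
    simp only [id]
    rw [h4]
    simp
  · have hi : IntegrableOn (fun s : ℝ => I * GG q τ (1 + I * (s : ℂ))) (Ioi 0) :=
      (int_vert hq hτ).const_mul I
    have h1 := intervalIntegral_tendsto_integral_Ioi 0 hi tendsto_id
    have h2 := h1.const_add (P 1)
    refine h2.congr' ?_
    filter_upwards [eventually_ge_atTop (0 : ℝ)] with x hx
    have hd : ∀ y ∈ Set.uIcc (0 : ℝ) x, HasDerivAt (fun y : ℝ => P (1 + I * (y : ℂ)))
        (I * GG q τ (1 + I * (y : ℂ))) y := by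
      intro y hy
      have h3 := hP (1 + I * (y : ℂ)) (by simp)
      have h5 : HasDerivAt (fun y : ℝ => 1 + I * (y : ℂ)) I y := by
        have h6 : HasDerivAt (fun t : ℝ => (t : ℂ)) 1 y := Complex.ofRealCLM.hasDerivAt
        simpa using (h6.const_mul I).const_add 1
      have h7 := h3.comp y h5
      rw [mul_comm]
      exact h7
    have hc : Continuous (fun y : ℝ => I * GG q τ (1 + I * (y : ℂ))) :=
      continuous_const.mul (cont_vert q τ)
    have h4 := intervalIntegral.integral_eq_sub_of_hasDerivAt hd (hc.intervalIntegrable _ _)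
    simp only [id]
    rw [h4]
    simp
  · unfold LL
    ring

/-! ### analyticity in `τ` -/

theorem hasDerivAt_GG (q : ℝ) (τ w : ℂ) :
    HasDerivAt (fun τ : ℂ => GG q τ w) (w ^ 2 * GG q τ w) τ := by
  unfold GG
  have h1 : HasDerivAt (fun τ : ℂ => (q : ℂ) * ell w - (2 * q / 3) * w ^ 3 + τ * w ^ 2)
      (w ^ 2) τ := by
    simpa using ((hasDerivAt_id τ).mul_const (w ^ 2)).const_add
      ((q : ℂ) * ell w - (2 * q / 3) * w ^ 3)
  have h2 := (h1.cexp.const_mul (2 * w))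
  refine h2.congr_deriv ?_
  ring

theorem LL_differentiableOn {q : ℝ} (hq : 0 < q) :
    DifferentiableOn ℂ (LL q) {τ | 2 * q < τ.re} := by
  intro τ₀ hτ₀
  have hτ0 : 2 * q < τ₀.re := hτ₀
  apply DifferentiableAt.differentiableWithinAt
  set δ : ℝ := (τ₀.re - 2 * q) / 2 with hδ
  have hδ0 : 0 < δ := by rw [hδ]; linarith
  set r : ℝ := min δ 1 with hr
  have hr0 : 0 < r := lt_min hδ0 one_pos
  have hball : ∀ τ ∈ Metric.ball τ₀ r, 2 * q + δ ≤ τ.re ∧ ‖τ‖ ≤ ‖τ₀‖ + 1 := by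
    intro τ hτ
    rw [Metric.mem_ball, dist_eq_norm] at hτ
    have h1 : |(τ - τ₀).re| ≤ ‖τ - τ₀‖ := Complex.abs_re_le_norm _
    rw [Complex.sub_re] at h1
    have h2 := (abs_lt.mp (lt_of_le_of_lt h1 hτ)).1
    have h3 : r ≤ δ := min_le_left _ _
    have h4 : r ≤ 1 := min_le_right _ _
    constructor
    · rw [hδ] at h3 ⊢
      linarith
    · have h5 : ‖τ‖ ≤ ‖τ₀‖ + ‖τ - τ₀‖ := by
        have := norm_add_le τ₀ (τ - τ₀)
        simpa using this
      linarith
  unfold LL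
  apply DifferentiableAt.sub
  · -- horizontal part
    obtain ⟨K, hK⟩ := norm_hor_le hq (M := ‖τ₀‖ + 1) (by positivity)
    have hmeas : ∀ τ : ℂ, AEStronglyMeasurable (fun x : ℝ => GG q τ (x : ℂ))
        (volume.restrict (Ioi 1)) := fun τ =>
      ((cont_hor q τ).mono (Ioi_subset_Ioi zero_le_one)).aestronglyMeasurable measurableSet_Ioi
    have hmain := hasDerivAt_integral_of_dominated_loc_of_deriv_le
      (μ := volume.restrict (Ioi (1 : ℝ))) (F := fun τ x => GG q τ ((x : ℝ) : ℂ))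
      (F' := fun τ x => ((x : ℝ) : ℂ) ^ 2 * GG q τ (x : ℂ)) (x₀ := τ₀)
      (bound := fun x => K * Real.exp (-x)) (Metric.ball_mem_nhds τ₀ hr0)
      (Filter.Eventually.of_forall hmeas) (int_hor hq τ₀) ?_ ?_ ?_ ?_
    · exact hmain.2.differentiableAt
    · refine AEStronglyMeasurable.mul ?_ (hmeas τ₀)
      exact (by fun_prop : Continuous fun x : ℝ => (x : ℂ) ^ 2).aestronglyMeasurable
    · refine (ae_restrict_iff' measurableSet_Ioi).mpr
        (Filter.Eventually.of_forall fun x hx τ hτ => ?_)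
      have hx1 : (1 : ℝ) < x := hx
      have h := hK τ (hball τ hτ).2 x hx1.le
      rw [norm_mul, norm_pow, Complex.norm_real, Real.norm_eq_abs, sq_abs]
      exact h
    · exact (integrableOn_exp_neg_Ioi 1).const_mul K
    · refine (ae_restrict_iff' measurableSet_Ioi).mpr
        (Filter.Eventually.of_forall fun x hx τ hτ => ?_)
      exact hasDerivAt_GG q τ _
  · -- vertical part
    have hmeas : ∀ τ : ℂ, AEStronglyMeasurable (fun s : ℝ => I * GG q τ (1 + I * (s : ℂ)))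
        (volume.restrict (Ioi 0)) := fun τ =>
      (continuous_const.mul (cont_vert q τ)).aestronglyMeasurable
    have hmain := hasDerivAt_integral_of_dominated_loc_of_deriv_le
      (μ := volume.restrict (Ioi (0 : ℝ))) (F := fun τ s => I * GG q τ (1 + I * ((s : ℝ) : ℂ)))
      (F' := fun τ s => I * ((1 + I * ((s : ℝ) : ℂ)) ^ 2 * GG q τ (1 + I * (s : ℂ)))) (x₀ := τ₀)
      (bound := fun s => 2 * Real.pi ^ (q / 2) * Real.exp (‖τ₀‖ + 1)
        * Real.exp (-(δ * s ^ 2) + (2 * (‖τ₀‖ + 1) + 3) * s)) (Metric.ball_mem_nhds τ₀ hr0)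
      (Filter.Eventually.of_forall hmeas) ((int_vert hq hτ0).const_mul I) ?_ ?_ ?_ ?_
    · exact hmain.2.differentiableAt
    · refine (continuous_const.mul (Continuous.mul ?_ (cont_vert q τ₀))).aestronglyMeasurable
      fun_prop
    · refine (ae_restrict_iff' measurableSet_Ioi).mpr
        (Filter.Eventually.of_forall fun s hs τ hτ => ?_)
      have hs0 : (0 : ℝ) < s := hs
      have h := norm_vert_le hq.le (hball τ hτ).1 (hball τ hτ).2 hs0.le
      rw [norm_mul, norm_mul, norm_pow, Complex.norm_I, one_mul]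
      have hn : ‖1 + I * (s : ℂ)‖ ≤ 1 + s := by
        refine (norm_add_le _ _).trans ?_
        rw [norm_mul, Complex.norm_I, Complex.norm_real, Real.norm_eq_abs, abs_of_nonneg hs0.le]
        simp
      refine le_trans ?_ h
      gcongr
    · exact ((integrable_quad hδ0 _).const_mul _).integrableOn
    · refine (ae_restrict_iff' measurableSet_Ioi).mpr
        (Filter.Eventually.of_forall fun s hs τ hτ => ?_)
      exact (hasDerivAt_GG q τ _).const_mul I

end Pool.Agent.H401R2.Fl
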